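import Mathlib

/-!
# Frobenius relations for labelled weights

`HT J d`: labelled weights (`d` integers for every `j` in the index set `J` of embeddings).
-/

namespace Q148.BM

open Finset

/-- Labelled weights: `d` integers for every element of `J`. -/
abbrev HT (J : Type*) (d : ℕ) := J → Fin d → ℤ

/-- Regular labelled weights, written in strictly decreasing order at every embedding. -/
def Reg {J : Type*} {d : ℕ} (l : HT J d) : Prop := ∀ j, StrictAnti (l j)

/-- The labelled weight with entries `c` at the places `s ∈ S` of the embedding `j`,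
and `0` elsewhere. -/
def bump {J : Type*} [DecidableEq J] {d : ℕ} (j : J) (S : Finset (Fin d)) (c : ℤ) : HT J d :=
  fun i s => if i = j ∧ s ∈ S then c else 0

open Classical in
/-- The antisymmetric extension of a function on regular labelled weights to all
labelled weights. -/
noncomputable def alt {J : Type*} [Fintype J] {d : ℕ} {A : Type*} [AddCommGroup A]
    (Z : HT J d → A) (l : HT J d) : A :=
  ∑ w : J → Equiv.Perm (Fin d), (∏ j, (Equiv.Perm.sign (w j) : ℤ)) •
    (if Reg (fun j s => l j (w j s)) then Z (fun j s => l j (w j s)) else 0)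

section measure

variable {d : ℕ}

/-- Total spread of `d` integers. -/
def spread (v : Fin d → ℤ) : ℤ := ∑ a, ∑ b, |v a - v b|

/-- indicator vector -/
def ind (S : Finset (Fin d)) (c : ℤ) : Fin d → ℤ := fun s => if s ∈ S then c else 0

theorem spread_nonneg (v : Fin d → ℤ) : 0 ≤ spread v :=
  Finset.sum_nonneg fun _ _ => Finset.sum_nonneg fun _ _ => abs_nonneg _

theorem spread_perm (v : Fin d → ℤ) (w : Equiv.Perm (Fin d)) :
    spread (fun s => v (w s)) = spread v := by
  unfold spread
  rw [← Equiv.sum_comp w (fun a => ∑ b, |v a - v b|)]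
  refine Finset.sum_congr rfl fun a _ => ?_
  exact Equiv.sum_comp w (fun b => |v (w a) - v b|)

/-- the number of ordered pairs separated by `S` -/
def sep (S : Finset (Fin d)) (a b : Fin d) : ℤ :=
  if (a ∈ S ∧ b ∉ S) ∨ (a ∉ S ∧ b ∈ S) then 1 else 0

theorem sum_sep (S : Finset (Fin d)) :
    ∑ a, ∑ b, sep S a b = 2 * d * S.card - 2 * (S.card : ℤ) ^ 2 := by
  have h : ∀ a b, sep S a b = (if a ∈ S then (1 : ℤ) else 0) + (if b ∈ S then (1 : ℤ) else 0)
      - 2 * ((if a ∈ S then (1 : ℤ) else 0) * (if b ∈ S then (1 : ℤ) else 0)) := by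
    intro a b
    unfold sep
    by_cases ha : a ∈ S <;> by_cases hb : b ∈ S <;> simp [ha, hb]
  simp_rw [h, Finset.sum_sub_distrib, Finset.sum_add_distrib, ← Finset.mul_sum]
  simp
  ring

theorem abs_bump (v : Fin d → ℤ) (S : Finset (Fin d)) {c : ℤ} (hc : 0 ≤ c) (a b : Fin d) :
    |(v + ind S c) a - (v + ind S c) b| ≤ |v a - v b| + c * sep S a b := by
  have : (v + ind S c) a - (v + ind S c) b = (v a - v b) + (ind S c a - ind S c b) := by
    simp only [Pi.add_apply]; ring
  rw [this]
  refine (abs_add_le _ _).trans (add_le_add le_rfl ?_)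
  unfold ind sep
  by_cases ha : a ∈ S <;> by_cases hb : b ∈ S <;> simp [ha, hb, abs_of_nonneg hc]

theorem spread_le (v : Fin d → ℤ) (S : Finset (Fin d)) {c : ℤ} (hc : 0 ≤ c) :
    spread (v + ind S c) ≤ spread v + c * (2 * d * S.card - 2 * (S.card : ℤ) ^ 2) := by
  rw [← sum_sep]
  unfold spread
  rw [Finset.mul_sum, ← Finset.sum_add_distrib]
  refine Finset.sum_le_sum fun a _ => ?_
  rw [Finset.mul_sum, ← Finset.sum_add_distrib]
  exact Finset.sum_le_sum fun b _ => abs_bump v S hc a b

theorem spread_lt {v : Fin d → ℤ} (hv : StrictAnti v) {S : Finset (Fin d)} {c : ℤ} (hc : 0 < c)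
    {a b : Fin d} (hab : a < b) (ha : a ∉ S) (hb : b ∈ S) :
    spread (v + ind S c) < spread v + c * (2 * d * S.card - 2 * (S.card : ℤ) ^ 2) := by
  rw [← sum_sep]
  unfold spread
  rw [Finset.mul_sum, ← Finset.sum_add_distrib]
  refine Finset.sum_lt_sum (fun a' _ => ?_) ⟨a, Finset.mem_univ _, ?_⟩
  · rw [Finset.mul_sum, ← Finset.sum_add_distrib]
    exact Finset.sum_le_sum fun b' _ => abs_bump v S hc.le a' b'
  · rw [Finset.mul_sum, ← Finset.sum_add_distrib]
    refine Finset.sum_lt_sum (fun b' _ => abs_bump v S hc.le a b') ⟨b, Finset.mem_univ _, ?_⟩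
    have h1 : v b < v a := hv hab
    have h2 : (v + ind S c) a - (v + ind S c) b = v a - v b - c := by
      simp [ind, ha, hb]; ring
    have h3 : sep S a b = 1 := by simp [sep, ha, hb]
    rw [h2, h3, mul_one, abs_of_pos (sub_pos.2 h1), abs_lt]
    constructor <;> linarith

theorem spread_eq {v : Fin d → ℤ} (hv : StrictAnti v) {i : ℕ} {c : ℤ} (hc : 0 ≤ c) :
    spread (v + ind (univ.filter fun a : Fin d => a.val < i) c) = spread v +
      c * (2 * d * (univ.filter fun a : Fin d => a.val < i).card
        - 2 * ((univ.filter fun a : Fin d => a.val < i).card : ℤ) ^ 2) := by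
  set S := univ.filter fun a : Fin d => a.val < i with hS
  have hmem : ∀ a, a ∈ S ↔ a.val < i := fun a => by simp [hS]
  rw [← sum_sep]
  unfold spread
  rw [Finset.mul_sum, ← Finset.sum_add_distrib]
  refine Finset.sum_congr rfl fun a _ => ?_
  rw [Finset.mul_sum, ← Finset.sum_add_distrib]
  refine Finset.sum_congr rfl fun b _ => ?_
  have : (v + ind S c) a - (v + ind S c) b = (v a - v b) + (ind S c a - ind S c b) := by
    simp only [Pi.add_apply]; ring
  rw [this]
  by_cases ha : a ∈ S <;> by_cases hb : b ∈ S
  · simp [ind, sep, ha, hb]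
  · have hab : a < b := by
      have h1 := (hmem a).1 ha
      have h2 := mt (hmem b).2 hb
      exact Fin.lt_def.2 (by omega)
    have h1 : v b < v a := hv hab
    have e1 : ind S c a - ind S c b = c := by simp [ind, ha, hb]
    have e2 : sep S a b = 1 := by simp [sep, ha, hb]
    rw [e1, e2, abs_of_pos (sub_pos.2 h1), abs_of_nonneg (by linarith)]; ring
  · have hab : b < a := by
      have h1 := (hmem b).1 hb
      have h2 := mt (hmem a).2 ha
      exact Fin.lt_def.2 (by omega)
    have h1 : v a < v b := hv hab
    have e1 : ind S c a - ind S c b = -c := by simp [ind, ha, hb]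
    have e2 : sep S a b = 1 := by simp [sep, ha, hb]
    rw [e1, e2, abs_of_neg (sub_neg.2 h1), abs_of_nonpos (by linarith)]; ring
  · simp [ind, sep, ha, hb]

end measure

section reduction

set_option linter.unusedSectionVars false

variable {J : Type*} [Fintype J] [DecidableEq J] {d : ℕ} {A : Type*} [AddCommGroup A]

theorem alt_of_reg (Z : HT J d → A) {l : HT J d} (hl : Reg l) : alt Z l = Z l := by
  classical
  unfold alt
  rw [Finset.sum_eq_single (fun _ => (1 : Equiv.Perm (Fin d)))]
  · simp [hl]
  · intro w _ hw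
    rw [if_neg, smul_zero]
    intro hr
    apply hw
    funext j
    have h1 : StrictMono (w j) := by
      intro a b hab
      have := hr j hab
      exact (hl j).lt_iff_gt.1 this
    have h2 : (w j : Fin d → Fin d) = id :=
      (StrictMono.range_inj h1 strictMono_id).1 (by simp)
    ext s
    simp [h2]
  · simp

theorem alt_eq_zero (Z : HT J d → A) {l : HT J d}
    (h : ∀ w : J → Equiv.Perm (Fin d), Reg (fun j s => l j (w j s)) →
      Z (fun j s => l j (w j s)) = 0) : alt Z l = 0 := by
  classical
  unfold alt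
  refine Finset.sum_eq_zero fun w _ => ?_
  split_ifs with hr
  · rw [h w hr, smul_zero]
  · rw [smul_zero]

/-- weighted spread of a labelled weight -/
def mea (w : J → ℤ) (l : HT J d) : ℤ := ∑ j, w j * spread (l j)

theorem mea_nonneg {w : J → ℤ} (hw : ∀ j, 0 ≤ w j) (l : HT J d) : 0 ≤ mea w l :=
  Finset.sum_nonneg fun j _ => mul_nonneg (hw j) (spread_nonneg _)

theorem mea_perm (w : J → ℤ) (l : HT J d) (u : J → Equiv.Perm (Fin d)) :
    mea w (fun j s => l j (u j s)) = mea w l := by
  unfold mea
  exact Finset.sum_congr rfl fun j _ => by rw [spread_perm (l j) (u j)]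

theorem mea_bump (w : J → ℤ) (l : HT J d) (j : J) (S : Finset (Fin d)) (c : ℤ) :
    mea w (l + bump j S c) = mea w l + w j * (spread (l j + ind S c) - spread (l j)) := by
  unfold mea
  rw [← sub_eq_iff_eq_add', ← Finset.sum_sub_distrib, Finset.sum_eq_single j]
  · have : (l + bump j S c) j = l j + ind S c := by
      funext s; simp [bump, ind]
    rw [this]; ring
  · intro i _ hi
    have : (l + bump j S c) i = l i := by
      funext s; simp [bump, hi]
    rw [this, sub_self]
  · simp

theorem reduce_gen (D : HT J d → A) (c c' : J → ℤ) (r : J → J) (w : J → ℤ)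
    (hc : ∀ j, 0 < c j) (hc' : ∀ j, 0 ≤ c' j) (hw : ∀ j, 0 ≤ w j)
    (hww : ∀ j, w (r j) * c' j < w j * c j)
    (hstep : ∀ j i, 1 ≤ i → i < d → ∀ (l : HT J d) (S0 : Finset (Fin d)), S0.card = i →
      Reg (l + bump j S0 (c j)) →
      (∀ S ∈ powersetCard i univ, S ≠ S0 → alt D (l + bump j S (c j)) = 0) →
      (∀ S ∈ powersetCard i univ, alt D (l + bump (r j) S (c' j)) = 0) →
      D (l + bump j S0 (c j)) = 0)
    (hsmall : ∀ l, Reg l → (∀ j (s : ℕ) (h : s + 1 < d),
      l j ⟨s, (Nat.lt_succ_self s).trans h⟩ - l j ⟨s + 1, h⟩ ≤ c j) → D l = 0) :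
    ∀ l, Reg l → D l = 0 := by
  classical
  have main : ∀ n : ℕ, ∀ l : HT J d, Reg l → (mea w l).toNat = n → D l = 0 := by
    intro n
    induction n using Nat.strong_induction_on with
    | _ n ih =>
      intro l hl hn
      by_cases hs : ∀ j (s : ℕ) (h : s + 1 < d),
          l j ⟨s, (Nat.lt_succ_self s).trans h⟩ - l j ⟨s + 1, h⟩ ≤ c j
      · exact hsmall l hl hs
      push Not at hs
      obtain ⟨j, s, h, hgap⟩ := hs
      -- everything of smaller measure vanishes
      have hless : ∀ m : HT J d, mea w m < mea w l → alt D m = 0 := by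
        intro m hm
        refine alt_eq_zero D fun u hu => ?_
        refine ih _ ?_ _ hu rfl
        rw [mea_perm, ← hn]
        have h0 := mea_nonneg hw m
        omega
      set i := s + 1 with hi
      set S0 : Finset (Fin d) := univ.filter fun a : Fin d => a.val < i with hS0
      have hcard : S0.card = i := by
        rw [hS0, Fin.card_filter_val_lt]
        exact min_eq_right h.le
      have hmem : ∀ a, a ∈ S0 ↔ a.val < i := fun a => by simp [hS0]
      set l' : HT J d := l - bump j S0 (c j) with hl'
      have hll : l' + bump j S0 (c j) = l := by rw [hl']; simp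
      have hlj : ∀ a, l j a = l' j a + (if a ∈ S0 then c j else 0) := by
        intro a
        conv_lhs => rw [← hll]
        simp [bump]
      have hanti : StrictAnti (l' j) := by
        intro a b hab
        have e1 := hlj a
        have e2 := hlj b
        have h1 := hl j hab
        by_cases ha : a ∈ S0 <;> by_cases hb : b ∈ S0
        · simp only [ha, hb, if_true] at e1 e2; linarith
        · simp only [ha, hb, if_true, if_false] at e1 e2
          have ha' := (hmem a).1 ha
          have hb' := mt (hmem b).2 hb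
          have g1 : l j ⟨s, (Nat.lt_succ_self s).trans h⟩ ≤ l j a :=
            (hl j).antitone (Fin.le_def.2 (by simp; omega))
          have g2 : l j b ≤ l j ⟨s + 1, h⟩ :=
            (hl j).antitone (Fin.le_def.2 (by simp; omega))
          linarith
        · exfalso
          have ha' := mt (hmem a).2 ha
          have hb' := (hmem b).1 hb
          have := Fin.lt_def.1 hab
          omega
        · simp only [ha, hb, if_false] at e1 e2; linarith
      set Q : ℤ := 2 * d * (i : ℤ) - 2 * (i : ℤ) ^ 2 with hQ
      have hQpos : 0 < Q := by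
        have h1 : (1 : ℤ) ≤ i := by exact_mod_cast (by omega : 1 ≤ i)
        have h2 : (i : ℤ) + 1 ≤ d := by exact_mod_cast (by omega : i + 1 ≤ d)
        have : Q = 2 * ((i : ℤ) * (d - i)) := by rw [hQ]; ring
        rw [this]
        have : 0 < (i : ℤ) * (d - i) := mul_pos (by linarith) (by linarith)
        linarith
      have hwj : 0 < w j := by
        have h1 := hww j
        have h2 : 0 ≤ w (r j) * c' j := mul_nonneg (hw _) (hc' _)
        by_contra hneg
        have h3 : w j = 0 := le_antisymm (not_lt.1 hneg) (hw j)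
        rw [h3, zero_mul] at h1
        linarith
      have hmeal : mea w l = mea w l' + w j * (c j * Q) := by
        conv_lhs => rw [← hll]
        rw [mea_bump]
        have := spread_eq hanti (i := i) (hc j).le
        rw [← hS0, hcard] at this
        rw [this, ← hQ]; ring
      have hL : ∀ S ∈ powersetCard i univ, S ≠ S0 → alt D (l' + bump j S (c j)) = 0 := by
        intro S hS hne
        have hSc : S.card = i := (mem_powersetCard.1 hS).2
        -- find a < b with a ∉ S, b ∈ S
        have hex : ∃ a b : Fin d, a < b ∧ a ∉ S ∧ b ∈ S := by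
          have h1 : ∃ a ∈ S0, a ∉ S := by
            by_contra hcon
            push Not at hcon
            exact hne (Finset.eq_of_subset_of_card_le hcon (by rw [hcard, hSc])).symm
          have h2 : ∃ b ∈ S, b ∉ S0 := by
            by_contra hcon
            push Not at hcon
            exact hne (Finset.eq_of_subset_of_card_le hcon (by rw [hcard, hSc]))
          obtain ⟨a, ha, haS⟩ := h1
          obtain ⟨b, hb, hbS⟩ := h2
          refine ⟨a, b, ?_, haS, hb⟩
          have ha' := (hmem a).1 ha
          have hb' := mt (hmem b).2 hbS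
          exact Fin.lt_def.2 (by omega)
        obtain ⟨a, b, hab, ha, hb⟩ := hex
        refine hless _ ?_
        rw [mea_bump, hmeal]
        have := spread_lt hanti (hc j) hab ha hb
        rw [hSc, ← hQ] at this
        have h3 : w j * (spread (l' j + ind S (c j)) - spread (l' j)) < w j * (c j * Q) :=
          mul_lt_mul_of_pos_left (by linarith) hwj
        linarith
      have hR : ∀ S ∈ powersetCard i univ, alt D (l' + bump (r j) S (c' j)) = 0 := by
        intro S hS
        refine hless _ ?_
        have hSc : S.card = i := (mem_powersetCard.1 hS).2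
        rw [mea_bump, hmeal]
        have := spread_le (l' (r j)) S (hc' j)
        rw [hSc, ← hQ] at this
        have h3 : w (r j) * (spread (l' (r j) + ind S (c' j)) - spread (l' (r j))) ≤
            w (r j) * (c' j * Q) := mul_le_mul_of_nonneg_left (by linarith) (hw _)
        have h4 : w (r j) * (c' j * Q) < w j * (c j * Q) := by
          have := mul_lt_mul_of_pos_right (hww j) hQpos
          linarith
        linarith
      have R := hstep j i (by omega) h l' S0 hcard (by rw [hll]; exact hl) hL hR
      rwa [hll] at R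
  intro l hl
  exact main _ l hl rfl

theorem reduce (D : HT J d → A) (c c' : J → ℤ) (r : J → J) (w : J → ℤ)
    (hc : ∀ j, 0 < c j) (hc' : ∀ j, 0 ≤ c' j) (hw : ∀ j, 0 ≤ w j)
    (hww : ∀ j, w (r j) * c' j < w j * c j)
    (hrel : ∀ j i, 1 ≤ i → i < d → ∀ l : HT J d,
      ∑ S ∈ powersetCard i univ, alt D (l + bump j S (c j)) =
        ∑ S ∈ powersetCard i univ, alt D (l + bump (r j) S (c' j)))
    (hsmall : ∀ l, Reg l → (∀ j (s : ℕ) (h : s + 1 < d),
      l j ⟨s, (Nat.lt_succ_self s).trans h⟩ - l j ⟨s + 1, h⟩ ≤ c j) → D l = 0) :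
    ∀ l, Reg l → D l = 0 := by
  refine reduce_gen D c c' r w hc hc' hw hww ?_ hsmall
  intro j i h1 h2 l S0 hS0 hreg hL hR
  have R := hrel j i h1 h2 l
  rw [Finset.sum_eq_single S0 hL, Finset.sum_eq_zero hR, alt_of_reg D hreg] at R
  · exact R
  · intro hS
    exact absurd (mem_powersetCard.2 ⟨subset_univ _, hS0⟩) hS

theorem reduce_le (D : HT J d → ℤ) (hpos : ∀ l, Reg l → 0 ≤ D l)
    (c c' : J → ℤ) (r : J → J) (w : J → ℤ)
    (hc : ∀ j, 0 < c j) (hc' : ∀ j, 0 ≤ c' j) (hw : ∀ j, 0 ≤ w j)
    (hww : ∀ j, w (r j) * c' j < w j * c j)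
    (hrel : ∀ j i, 1 ≤ i → i < d → ∀ l : HT J d,
      ∑ S ∈ powersetCard i univ, alt D (l + bump j S (c j)) ≤
        ∑ S ∈ powersetCard i univ, alt D (l + bump (r j) S (c' j)))
    (hsmall : ∀ l, Reg l → (∀ j (s : ℕ) (h : s + 1 < d),
      l j ⟨s, (Nat.lt_succ_self s).trans h⟩ - l j ⟨s + 1, h⟩ ≤ c j) → D l = 0) :
    ∀ l, Reg l → D l = 0 := by
  refine reduce_gen D c c' r w hc hc' hw hww ?_ hsmall
  intro j i h1 h2 l S0 hS0 hreg hL hR
  have R := hrel j i h1 h2 l
  rw [Finset.sum_eq_single S0 hL, Finset.sum_eq_zero hR, alt_of_reg D hreg] at R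
  · exact le_antisymm R (hpos _ hreg)
  · intro hS
    exact absurd (mem_powersetCard.2 ⟨subset_univ _, hS0⟩) hS

end reduction

end Q148.BM
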