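import Mathlib
import Pool.Agent.Q148.BM.Core

/-!
# Newton's identities for relations between shifted labelled weights
-/

namespace Q148.BM

open Finset MvPolynomial

set_option linter.unusedSectionVars false

/-- power sums agree up to `h` imply elementary symmetric functions agree up to `h` -/
theorem newtonQ {Q : Type*} [CommRing Q] (htf : ∀ (k : ℕ) (x : Q), k ≠ 0 → (k : Q) * x = 0 → x = 0)
    {d : ℕ} (X Y : Fin d → Q) (h : ℕ)
    (hp : ∀ m, 1 ≤ m → m ≤ h → ∑ s, X s ^ m = ∑ s, Y s ^ m) :
    ∀ i, i ≤ h → aeval X (esymm (Fin d) ℤ i) = aeval Y (esymm (Fin d) ℤ i) := by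
  intro i
  induction i using Nat.strong_induction_on with
  | _ i ih =>
    intro hi
    rcases Nat.eq_zero_or_pos i with h0 | h0
    · subst h0; simp [esymm_zero]
    have key : ∀ Z : Fin d → Q, (i : Q) * aeval Z (esymm (Fin d) ℤ i) = (-1) ^ (i + 1) *
        ∑ a ∈ antidiagonal i with a.1 < i, (-1) ^ a.1 * aeval Z (esymm (Fin d) ℤ a.1) *
          (∑ s, Z s ^ a.2) := by
      intro Z
      have := congrArg (aeval Z) (mul_esymm_eq_sum (Fin d) ℤ i)
      simpa [map_mul, map_sum, map_pow, psum] using this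
    have : (i : Q) * (aeval X (esymm (Fin d) ℤ i) - aeval Y (esymm (Fin d) ℤ i)) = 0 := by
      rw [mul_sub, key X, key Y, sub_eq_zero]
      congr 1
      refine Finset.sum_congr rfl fun a ha => ?_
      rw [Finset.mem_filter, Finset.HasAntidiagonal.mem_antidiagonal] at ha
      rw [ih a.1 ha.2 (by omega), hp a.2 (by omega) (by omega)]
    exact sub_eq_zero.1 (htf i _ (by omega) this)

section

variable {J : Type*} [Fintype J] [DecidableEq J] {d : ℕ} {A : Type*} [AddCommGroup A]

/-- shift operators -/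
def shiftHom (G A : Type*) [AddCommGroup G] [AddCommGroup A] :
    Multiplicative G →* Module.End ℤ (G → A) where
  toFun c :=
    { toFun := fun E l => E (l + c.toAdd)
      map_add' := fun _ _ => rfl
      map_smul' := fun _ _ => rfl }
  map_one' := by
    ext E l
    simp
  map_mul' := by
    intro c c'
    ext E l
    simp only [LinearMap.coe_mk, AddHom.coe_mk, toAdd_mul, Module.End.mul_apply, ← add_assoc]

/-- the action of the group ring on functions -/
noncomputable def act (G A : Type*) [AddCommGroup G] [AddCommGroup A] :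
    AddMonoidAlgebra ℤ G →ₐ[ℤ] Module.End ℤ (G → A) :=
  AddMonoidAlgebra.lift ℤ (Module.End ℤ (G → A)) G (shiftHom G A)

theorem act_single {G : Type*} [AddCommGroup G] (c : G) (E : G → A) (l : G) :
    act G A (AddMonoidAlgebra.single c 1) E l = E (l + c) := by
  simp [act, shiftHom]

/-- the ideal of relations satisfied by a function -/
noncomputable def annI {G : Type*} [AddCommGroup G] (E : G → A) : Ideal (AddMonoidAlgebra ℤ G) where
  carrier := {g | act G A g E = 0}
  zero_mem' := by simp
  add_mem' := by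
    intro a b ha hb
    change act G A _ E = 0 at ha hb
    change act G A _ E = 0
    rw [map_add, LinearMap.add_apply, ha, hb, add_zero]
  smul_mem' := by
    intro c g hg
    change act G A _ E = 0 at hg
    change act G A _ E = 0
    rw [smul_eq_mul, map_mul, Module.End.mul_apply, hg, map_zero]

theorem mem_annI {G : Type*} [AddCommGroup G] (E : G → A) (g : AddMonoidAlgebra ℤ G) :
    g ∈ annI E ↔ act G A g E = 0 := Iff.rfl

theorem single_prod {G : Type*} [AddCommGroup G] {ι : Type*} (S : Finset ι) (v : ι → G) :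
    (∏ s ∈ S, AddMonoidAlgebra.single (v s) (1 : ℤ)) =
      AddMonoidAlgebra.single (∑ s ∈ S, v s) 1 := by
  classical
  induction S using Finset.induction_on with
  | empty => simp [AddMonoidAlgebra.one_def]
  | insert a S ha ih => rw [prod_insert ha, ih, sum_insert ha, AddMonoidAlgebra.single_mul_single, one_mul]

theorem sum_bump (j : J) (S : Finset (Fin d)) (c : ℤ) :
    ∑ s ∈ S, (bump j {s} c : HT J d) = bump j S c := by
  funext i a
  rw [Finset.sum_apply, Finset.sum_apply]
  simp only [bump, Finset.mem_singleton]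
  by_cases hi : i = j
  · simp only [hi, true_and]
    by_cases ha : a ∈ S
    · rw [if_pos ha, Finset.sum_eq_single a]
      · simp
      · intro b _ hb; simp [Ne.symm hb]
      · intro h; exact absurd ha h
    · rw [if_neg ha]
      refine Finset.sum_eq_zero fun b hb => ?_
      rw [if_neg]; rintro rfl; exact ha hb
  · simp [hi]

theorem nsmul_bump (j : J) (S : Finset (Fin d)) (c : ℤ) (m : ℕ) :
    m • (bump j S c : HT J d) = bump j S (m * c) := by
  funext i a
  simp only [bump, Pi.smul_apply]
  split_ifs <;> simp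

/-- Newton's identities: relations for power sums give relations for elementary symmetric
functions. -/
theorem newton [IsAddTorsionFree A] (E : HT J d → A) (j j' : J) (c c' : ℤ) (h : ℕ)
    (hp : ∀ m : ℕ, 1 ≤ m → m ≤ h → ∀ l : HT J d,
      ∑ s, E (l + bump j {s} (m * c)) = ∑ s, E (l + bump j' {s} (m * c'))) :
    ∀ i, i ≤ h → ∀ l : HT J d,
      ∑ S ∈ powersetCard i univ, E (l + bump j S c) =
        ∑ S ∈ powersetCard i univ, E (l + bump j' S c') := by
  intro i hi l
  set I := annI E with hI
  let mk := Ideal.Quotient.mk I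
  let X : Fin d → (AddMonoidAlgebra ℤ (HT J d)) ⧸ I :=
    fun s => mk (AddMonoidAlgebra.single (bump j {s} c) 1)
  let Y : Fin d → (AddMonoidAlgebra ℤ (HT J d)) ⧸ I :=
    fun s => mk (AddMonoidAlgebra.single (bump j' {s} c') 1)
  have htf : ∀ (k : ℕ) (x : (AddMonoidAlgebra ℤ (HT J d)) ⧸ I), k ≠ 0 →
      (k : (AddMonoidAlgebra ℤ (HT J d)) ⧸ I) * x = 0 → x = 0 := by
    intro k x hk hx
    obtain ⟨g, rfl⟩ := Ideal.Quotient.mk_surjective x
    have h1 : (mk ((k : AddMonoidAlgebra ℤ (HT J d)) * g)) = 0 := by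
      rw [map_mul, map_natCast]; exact hx
    rw [Ideal.Quotient.eq_zero_iff_mem, hI, mem_annI, map_mul, map_natCast] at h1
    rw [Ideal.Quotient.eq_zero_iff_mem, hI, mem_annI]
    funext m
    have h2 := congrFun h1 m
    have h3 : k • (act (HT J d) A g E m) = 0 := by
      rw [← Nat.cast_smul_eq_nsmul ℤ]
      simpa [Module.End.mul_apply] using h2
    exact (IsAddTorsionFree.nsmul_right_injective hk (by simpa using h3) :
      act (HT J d) A g E m = 0)
  have hX : ∀ (v : Fin d → HT J d) (m : ℕ) (l : HT J d),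
      act (HT J d) A (∑ s, (AddMonoidAlgebra.single (v s) (1 : ℤ)) ^ m) E l =
        ∑ s, E (l + m • v s) := by
    intro v m l
    rw [map_sum, LinearMap.sum_apply, Finset.sum_apply]
    refine Finset.sum_congr rfl fun s _ => ?_
    rw [AddMonoidAlgebra.single_pow, one_pow, act_single]
  have hpow : ∀ m, 1 ≤ m → m ≤ h → ∑ s, X s ^ m = ∑ s, Y s ^ m := by
    intro m h1 h2
    have e : ∑ s, X s ^ m - ∑ s, Y s ^ m =
        mk (∑ s, (AddMonoidAlgebra.single (bump j {s} c : HT J d) (1 : ℤ)) ^ m -
          ∑ s, (AddMonoidAlgebra.single (bump j' {s} c' : HT J d) (1 : ℤ)) ^ m) := by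
      rw [map_sub, map_sum, map_sum]
      simp only [map_pow, X, Y]
    rw [← sub_eq_zero, e, Ideal.Quotient.eq_zero_iff_mem, hI, mem_annI]
    funext l
    rw [map_sub, LinearMap.sub_apply, Pi.sub_apply, hX, hX]
    simp only [nsmul_bump]
    rw [hp m h1 h2 l, sub_self]; rfl
  have hq := newtonQ htf X Y h hpow i hi
  have hXe : ∀ (v : Fin d → HT J d),
      aeval (fun s => mk (AddMonoidAlgebra.single (v s) (1 : ℤ))) (esymm (Fin d) ℤ i) =
        mk (∑ S ∈ powersetCard i univ, AddMonoidAlgebra.single (∑ s ∈ S, v s) (1 : ℤ)) := by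
    intro v
    rw [esymm, map_sum, map_sum]
    refine Finset.sum_congr rfl fun S _ => ?_
    rw [map_prod, ← single_prod, map_prod]
    refine Finset.prod_congr rfl fun s _ => ?_
    rw [aeval_X]
  have hq2 : mk (∑ S ∈ powersetCard i univ, AddMonoidAlgebra.single (∑ s ∈ S, (bump j {s} c : HT J d)) (1 : ℤ) -
      ∑ S ∈ powersetCard i univ, AddMonoidAlgebra.single (∑ s ∈ S, (bump j' {s} c' : HT J d)) (1 : ℤ)) = 0 := by
    rw [map_sub, ← hXe, ← hXe, sub_eq_zero]
    exact hq
  rw [Ideal.Quotient.eq_zero_iff_mem, hI, mem_annI] at hq2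
  have h3 := congrFun hq2 l
  simp only [sum_bump, map_sub, map_sum, LinearMap.sub_apply, LinearMap.sum_apply, Pi.sub_apply,
    Finset.sum_apply, act_single, Pi.zero_apply] at h3
  exact sub_eq_zero.1 h3

end

end Q148.BM
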