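import Mathlib
import Pool.Agent.Q148.BM.Newton

/-!
# Frobenius relations for labelled Hodge–Tate weights
-/

namespace Q148.BM

open Finset

set_option linter.unusedSectionVars false

section general

variable {J : Type*} [Fintype J] [DecidableEq J] {d : ℕ} {A : Type*} [AddCommGroup A]

theorem alt_map {B : Type*} [AddCommGroup B] (φ : A →+ B) (Z : HT J d → A) (l : HT J d) :
    alt (fun m => φ (Z m)) l = φ (alt Z l) := by
  classical
  unfold alt
  rw [map_sum]
  refine Finset.sum_congr rfl fun w _ => ?_
  rw [map_zsmul]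
  congr 1
  split_ifs <;> simp

theorem alt_add (Z Z' : HT J d → A) (l : HT J d) :
    alt (fun m => Z m + Z' m) l = alt Z l + alt Z' l := by
  classical
  unfold alt
  rw [← Finset.sum_add_distrib]
  refine Finset.sum_congr rfl fun w _ => ?_
  rw [← smul_add]
  congr 1
  split_ifs <;> simp

theorem alt_zero (l : HT J d) : alt (fun _ => (0 : A)) l = 0 := by
  classical
  unfold alt
  simp

theorem alt_sub (Z Z' : HT J d → A) (l : HT J d) :
    alt (fun m => Z m - Z' m) l = alt Z l - alt Z' l := by
  have := alt_add (fun m => Z m - Z' m) Z' l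
  simp only [sub_add_cancel] at this
  rw [this, add_sub_cancel_right]

theorem alt_sum {ι : Type*} (S : Finset ι) (Z : ι → HT J d → A) (l : HT J d) :
    alt (fun m => ∑ k ∈ S, Z k m) l = ∑ k ∈ S, alt (Z k) l := by
  classical
  induction S using Finset.induction_on with
  | empty => simp [alt_zero]
  | insert a S ha ih =>
    simp only [sum_insert ha]
    rw [alt_add, ih]

theorem alt_smul_right (n : HT J d → ℤ) (a : A) (l : HT J d) :
    alt (fun m => n m • a) l = alt n l • a := by
  have := alt_map ((zmultiplesHom A) a) n l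
  simpa using this

/-- only the values on regular weights matter -/
theorem alt_congr {Z Z' : HT J d → A} (h : ∀ l, Reg l → Z l = Z' l) (l : HT J d) :
    alt Z l = alt Z' l := by
  classical
  unfold alt
  refine Finset.sum_congr rfl fun w _ => ?_
  congr 1
  split_ifs with hr
  · exact h _ hr
  · rfl

/-- labelled weight constant at every embedding -/
def cst (c : J → ℤ) : HT J d := fun j _ => c j

theorem bump_univ (j : J) (x : ℤ) : (bump j univ x : HT J d) = cst (Pi.single j x) := by
  funext i s
  by_cases h : i = j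
  · subst h; simp [bump, cst]
  · simp [bump, cst, h]

theorem reg_add_cst (l : HT J d) (c : J → ℤ) : Reg (l + cst c) ↔ Reg l := by
  unfold Reg
  refine forall_congr' fun j => ?_
  constructor
  · intro h a b hab
    have := h hab
    simp only [Pi.add_apply, cst] at this
    linarith
  · intro h a b hab
    have := h hab
    simp only [Pi.add_apply, cst]
    linarith

theorem alt_add_cst (Z Z' : HT J d → A) (c c' : J → ℤ)
    (h : ∀ l, Reg l → Z (l + cst c) = Z' (l + cst c')) (l : HT J d) :
    alt Z (l + cst c) = alt Z' (l + cst c') := by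
  classical
  unfold alt
  refine Finset.sum_congr rfl fun w _ => ?_
  congr 1
  have e : ∀ c : J → ℤ, (fun j s => (l + cst c : HT J d) j (w j s)) =
      ((fun j s => l j (w j s)) + cst c : HT J d) := by
    intro c; funext j s; simp [cst]
  rw [e, e]
  simp only [reg_add_cst]
  split_ifs with hr
  · exact h _ hr
  · rfl

/-- reversal of the order at every embedding -/
def revNeg (l : HT J d) : HT J d := fun j s => - l j (Fin.rev s)

theorem alt_neg (Z : HT J d → A) (ι : A ≃+ A) (h : ∀ l, Reg l → Z (revNeg l) = ι (Z l))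
    (l : HT J d) :
    alt Z (-l) = (∏ _j : J, (Equiv.Perm.sign (Fin.revPerm : Equiv.Perm (Fin d)) : ℤ)) •
      ι (alt Z l) := by
  classical
  unfold alt
  rw [map_sum, Finset.smul_sum]
  symm
  refine Finset.sum_equiv (Equiv.mulRight
    (fun _ : J => (Fin.revPerm : Equiv.Perm (Fin d)))) (by simp) fun w _ => ?_
  have e1 : (fun j s => (-l) j
      ((Equiv.mulRight (fun _ : J => (Fin.revPerm : Equiv.Perm (Fin d)))) w j s)) =
      revNeg (fun j s => l j (w j s)) := by
    funext j s
    simp [revNeg]
  have e2 : ∀ m : HT J d, Reg (revNeg m) ↔ Reg m := by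
    intro m
    unfold Reg
    refine forall_congr' fun j => ?_
    constructor
    · intro hh a b hab
      have := hh (Fin.rev_lt_rev.2 hab)
      simp only [revNeg, Fin.rev_rev] at this
      linarith
    · intro hh a b hab
      have := hh (Fin.rev_lt_rev.2 hab)
      simp only [revNeg]
      linarith
  rw [e1, e2, map_zsmul, smul_smul]
  have e3 : (∏ j, (Equiv.Perm.sign
      ((Equiv.mulRight (fun _ : J => (Fin.revPerm : Equiv.Perm (Fin d)))) w j) : ℤ)) =
      (∏ _j : J, (Equiv.Perm.sign (Fin.revPerm : Equiv.Perm (Fin d)) : ℤ)) *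
        ∏ j, (Equiv.Perm.sign (w j) : ℤ) := by
    rw [← Finset.prod_mul_distrib]
    refine Finset.prod_congr rfl fun j _ => ?_
    simp [mul_comm]
  rw [e3]
  congr 1
  split_ifs with hr
  · exact (h _ hr).symm
  · simp

theorem bump_neg (j : J) (S : Finset (Fin d)) (c : ℤ) :
    (bump j S (-c) : HT J d) = - bump j S c := by
  funext i s
  simp only [bump, Pi.neg_apply]
  split_ifs <;> simp

theorem bump_compl (j : J) (S : Finset (Fin d)) (c : ℤ) :
    (bump j Sᶜ c : HT J d) = bump j univ c + bump j S (-c) := by
  funext i s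
  simp only [bump, Pi.add_apply, mem_univ, mem_compl, and_true]
  by_cases h : i = j <;> by_cases h' : s ∈ S <;> simp [h, h']

/-- The relations for elementary symmetric functions in all degrees, from those of degree at
most `h`, the negative ones of degree at most `h'`, and the one of degree `d`. -/
theorem elem_all (E : HT J d → A) (j j' : J) (c c' : ℤ) (h h' : ℕ) (hh : d ≤ h + h' + 1)
    (hpos : ∀ i, i ≤ h → ∀ l : HT J d,
      ∑ S ∈ powersetCard i univ, E (l + bump j S c) =
        ∑ S ∈ powersetCard i univ, E (l + bump j' S c'))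
    (hneg : ∀ i, i ≤ h' → ∀ l : HT J d,
      ∑ S ∈ powersetCard i univ, E (l + bump j S (-c)) =
        ∑ S ∈ powersetCard i univ, E (l + bump j' S (-c')))
    (htw : ∀ l : HT J d, E (l + bump j univ c) = E (l + bump j' univ c')) :
    ∀ i, i ≤ d → ∀ l : HT J d,
      ∑ S ∈ powersetCard i univ, E (l + bump j S c) =
        ∑ S ∈ powersetCard i univ, E (l + bump j' S c') := by
  intro i hi l
  by_cases h1 : i ≤ h
  · exact hpos i h1 l
  have h2 : d - i ≤ h' := by omega
  have key : ∀ F : Finset (Fin d) → A, ∑ S ∈ powersetCard i univ, F S =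
      ∑ S ∈ powersetCard (d - i) univ, F Sᶜ := by
    intro F
    refine Finset.sum_nbij' (fun S => Sᶜ) (fun S => Sᶜ) ?_ ?_ ?_ ?_ ?_
    · intro S hS
      rw [mem_powersetCard] at hS ⊢
      exact ⟨subset_univ _, by rw [card_compl, hS.2, Fintype.card_fin]⟩
    · intro S hS
      rw [mem_powersetCard] at hS ⊢
      refine ⟨subset_univ _, ?_⟩
      rw [card_compl, hS.2, Fintype.card_fin]; omega
    · intro S _; simp
    · intro S _; simp
    · intro S _; simp
  rw [key, key]
  have e1 : ∀ S : Finset (Fin d), E (l + bump j Sᶜ c) =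
      E ((l + bump j univ c) + bump j S (-c)) := by
    intro S; rw [bump_compl, add_assoc]
  have e2 : ∀ S : Finset (Fin d), E (l + bump j' Sᶜ c') =
      E ((l + bump j univ c) + bump j' S (-c')) := by
    intro S
    rw [bump_compl, ← add_assoc]
    have := htw (l + bump j' S (-c'))
    rw [add_right_comm l _ (bump j' S (-c')), add_right_comm l _ (bump j' S (-c'))]
    exact this.symm
  simp only [e1, e2]
  exact hneg _ h2 _

end general

section frob

variable {f e d : ℕ} [NeZero f] [NeZero e] {A : Type*} [AddCommGroup A]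

/-- The embeddings of a `p`-adic field with residue degree `f` and ramification index `e`:
`(j, t)` lies over the embedding `j` of the residue field, `j + 1` being the composition of `j`
with Frobenius. -/
abbrev Emb (f e : ℕ) := ZMod f × Fin e

/-- `Frobenius relations of degree at most h`. -/
def PowRel (p h : ℕ) (Z : HT (Emb f e) d → A) : Prop :=
  ∀ (i : ZMod f) (t t' : Fin e) (m : ℕ), 1 ≤ m → m ≤ h → ∀ l : HT (Emb f e) d,
    ∑ s, alt Z (l + bump (i, t) {s} (m * p)) = ∑ s, alt Z (l + bump (i + 1, t') {s} m)

/-- invariance under twists -/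
def TwistRel (p : ℕ) (Z : HT (Emb f e) d → A) : Prop :=
  ∀ (i : ZMod f) (t t' : Fin e) (l : HT (Emb f e) d), Reg l →
    Z (l + bump (i, t) univ p) = Z (l + bump (i + 1, t') univ 1)

/-- relations for elementary symmetric functions -/
def ElemRel (p : ℕ) (Z : HT (Emb f e) d → A) : Prop :=
  ∀ (i : ZMod f) (t t' : Fin e) (k : ℕ), k ≤ d → ∀ l : HT (Emb f e) d,
    ∑ S ∈ powersetCard k univ, alt Z (l + bump (i, t) S p) =
      ∑ S ∈ powersetCard k univ, alt Z (l + bump (i + 1, t') S 1)

theorem elem_of_pow [IsAddTorsionFree A] {p h h' : ℕ} (hh : d ≤ h + h' + 1)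
    {Z : HT (Emb f e) d → A} (hp : PowRel p h Z) (ht : TwistRel p Z)
    (hd : h' = 0 ∨ (h' ≤ h ∧ ∃ ι : A ≃+ A, ∀ l, Reg l → Z (revNeg l) = ι (Z l))) :
    ElemRel p Z := by
  intro i t t' k hk l
  refine elem_all (alt Z) (i, t) (i + 1, t') p 1 h h' hh ?_ ?_ ?_ k hk l
  · refine newton (alt Z) _ _ _ _ h ?_
    intro m h1 h2 l
    simpa using hp i t t' m h1 h2 l
  · rcases hd with rfl | ⟨hle, ι, hι⟩
    · intro a ha l
      have : a = 0 := by omega
      subst this
      simp only [powersetCard_zero, sum_singleton]
      have e0 : ∀ (j : Emb f e) (c : ℤ), (bump j (∅ : Finset (Fin d)) c : HT (Emb f e) d) = 0 := by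
        intro j c; funext a b; simp [bump]
      rw [e0, e0]
    · refine newton (alt Z) _ _ _ _ h' ?_
      intro m h1 h2 l
      have hneg : ∀ (j : Emb f e) (s : Fin d) (c : ℤ), alt Z (l + bump j {s} (m * (-c))) =
          (∏ _j : Emb f e, (Equiv.Perm.sign (Fin.revPerm : Equiv.Perm (Fin d)) : ℤ)) •
            ι (alt Z (-l + bump j {s} (m * c))) := by
        intro j s c
        rw [← alt_neg Z ι hι]
        congr 1
        rw [mul_neg, bump_neg]
        abel
      simp only [hneg, ← Finset.smul_sum, ← map_sum]
      congr 2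
      simpa using hp i t t' m h1 (h2.trans hle) (-l)
  · intro l
    rw [bump_univ, bump_univ]
    refine alt_add_cst Z Z _ _ ?_ l
    intro l hl
    rw [← bump_univ, ← bump_univ]
    exact ht i t t' l hl

theorem elem_of_pow_full [IsAddTorsionFree A] {p : ℕ} {Z : HT (Emb f e) d → A}
    (hp : PowRel p d Z) : ElemRel p Z := by
  intro i t t' k hk l
  refine newton (alt Z) _ _ _ _ d ?_ k hk l
  intro m h1 h2 l
  simpa using hp i t t' m h1 h2 l

end frob

end Q148.BM
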