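import Mathlib
import Pool.Agent.Q148.BM.Frob

/-!
# Reduction of labelled Hodge–Tate weights to lifts of Serre weights
-/

namespace Q148.BM

open Finset

set_option linter.unusedSectionVars false

section

variable {f e d : ℕ} [NeZero f] [NeZero e] [NeZero d] {A : Type*} [AddCommGroup A]

/-- Lifts of Serre weights: consecutive entries differ by at most `p` at the chosen embeddings
`(i, 0)` and by `1` at the others, the last entry is `0` except at `(0, 0)`, where it is between
`0` and `p ^ f - 2`. -/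
def IsLift (p : ℕ) (l : HT (Emb f e) d) : Prop :=
  Reg l ∧
  (∀ (i : ZMod f) (s : ℕ) (h : s + 1 < d),
    l (i, 0) ⟨s, (Nat.lt_succ_self s).trans h⟩ - l (i, 0) ⟨s + 1, h⟩ ≤ p) ∧
  (∀ (i : ZMod f) (t : Fin e), t ≠ 0 → ∀ (s : ℕ) (h : s + 1 < d),
    l (i, t) ⟨s, (Nat.lt_succ_self s).trans h⟩ - l (i, t) ⟨s + 1, h⟩ = 1) ∧
  (∀ j : Emb f e, j ≠ (0, 0) → l j (Fin.rev 0) = 0) ∧
  0 ≤ l (0, 0) (Fin.rev 0) ∧ l (0, 0) (Fin.rev 0) < (p : ℤ) ^ f - 1

/-- the constants whose addition does not change `alt D` -/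
def stab (D : HT (Emb f e) d → A) : AddSubgroup (Emb f e → ℤ) where
  carrier := {c | ∀ l, alt D (l + cst c) = alt D l}
  zero_mem' := by
    intro l
    congr 1
    funext j s
    simp [cst]
  add_mem' := by
    intro a b ha hb l
    have : (l + cst (a + b) : HT (Emb f e) d) = (l + cst a) + cst b := by
      funext j s; simp [cst, add_assoc]
    rw [this, hb, ha]
  neg_mem' := by
    intro a ha l
    have := ha (l + cst (-a))
    have e1 : (l + cst (-a) + cst a : HT (Emb f e) d) = l := by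
      funext j s; simp [cst]
    rw [e1] at this
    exact this.symm

/-- the relation of degree `d` -/
def AltTw (p : ℕ) (D : HT (Emb f e) d → A) : Prop :=
  ∀ (i : ZMod f) (t t' : Fin e) (l : HT (Emb f e) d),
    alt D (l + bump (i, t) univ p) = alt D (l + bump (i + 1, t') univ 1)

theorem ElemRel.tw {p : ℕ} {D : HT (Emb f e) d → A} (hD : ElemRel p D) : AltTw p D := by
  intro i t t' l
  have h := hD i t t' d le_rfl l
  have hc : powersetCard d (univ : Finset (Fin d)) = {univ} := by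
    have := powersetCard_self (univ : Finset (Fin d))
    rwa [card_univ, Fintype.card_fin] at this
  rwa [hc, sum_singleton, sum_singleton] at h

theorem TwistRel.tw {p : ℕ} {D : HT (Emb f e) d → A} (hD : TwistRel p D) : AltTw p D := by
  intro i t t' l
  rw [bump_univ, bump_univ]
  refine alt_add_cst D D _ _ ?_ l
  intro l hl
  rw [← bump_univ, ← bump_univ]
  exact hD i t t' l hl

theorem stab_gen {p : ℕ} {D : HT (Emb f e) d → A} (hD : AltTw p D) (i : ZMod f)
    (t t' : Fin e) :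
    (Pi.single (i + 1, t') 1 - Pi.single (i, t) (p : ℤ) : Emb f e → ℤ) ∈ stab D := by
  intro l
  have h := hD i t t' (l - cst (Pi.single (i, t) (p : ℤ)))
  rw [bump_univ, bump_univ, sub_add_cancel] at h
  rw [h]
  congr 1
  funext j s
  simp [cst]
  ring

theorem stab_pow {p : ℕ} {D : HT (Emb f e) d → A} (hD : AltTw p D) (n : ℕ) (t : Fin e) :
    (Pi.single ((n : ZMod f) + 1, t) 1 - Pi.single (0, 0) ((p : ℤ) ^ (n + 1)) : Emb f e → ℤ)
      ∈ stab D := by
  induction n generalizing t with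
  | zero => simpa using stab_gen hD 0 0 t
  | succ n ih =>
    have h1 := stab_gen hD ((n : ZMod f) + 1) 0 t
    have h2 := (stab D).zsmul_mem (ih 0) (p : ℤ)
    have h3 := (stab D).add_mem h1 h2
    have e1 : (Pi.single (((n + 1 : ℕ) : ZMod f) + 1, t) 1 -
        Pi.single (0, 0) ((p : ℤ) ^ (n + 1 + 1)) : Emb f e → ℤ) =
        (Pi.single ((n : ZMod f) + 1 + 1, t) 1 - Pi.single ((n : ZMod f) + 1, 0) (p : ℤ)) +
          (p : ℤ) • (Pi.single ((n : ZMod f) + 1, 0) 1 -
            Pi.single (0, 0) ((p : ℤ) ^ (n + 1)) : Emb f e → ℤ) := by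
      push_cast
      rw [smul_sub, ← Pi.single_smul, ← Pi.single_smul]
      simp only [smul_eq_mul, mul_one]
      rw [pow_succ' (p : ℤ) (n + 1)]
      abel
    rw [e1]
    exact h3

/-- every single vector is congruent to a multiple of the one at `(0, 0)` -/
theorem stab_single {p : ℕ} {D : HT (Emb f e) d → A} (hD : AltTw p D) (j : Emb f e) :
    ∃ N : ℤ, (Pi.single j 1 - Pi.single (0, 0) N : Emb f e → ℤ) ∈ stab D := by
  obtain ⟨i, t⟩ := j
  obtain ⟨n, hn⟩ := ZMod.natCast_zmod_surjective (n := f) (i - 1)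
  refine ⟨(p : ℤ) ^ (n + 1), ?_⟩
  have := stab_pow hD n t
  rw [hn, sub_add_cancel] at this
  exact this

theorem stab_all {p : ℕ} {D : HT (Emb f e) d → A} (hD : AltTw p D) (c : Emb f e → ℤ) :
    ∃ N : ℤ, (c - Pi.single (0, 0) N : Emb f e → ℤ) ∈ stab D := by
  choose N hN using stab_single (D := D) hD
  refine ⟨∑ j, c j * N j, ?_⟩
  have h : (∑ j, c j • (Pi.single j 1 - Pi.single (0, 0) (N j) : Emb f e → ℤ)) ∈ stab D :=
    AddSubgroup.sum_mem _ fun j _ => AddSubgroup.zsmul_mem _ (hN j) _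
  have e1 : ∑ j, c j • (Pi.single j 1 - Pi.single (0, 0) (N j) : Emb f e → ℤ) =
      c - Pi.single (0, 0) (∑ j, c j * N j) := by
    funext a
    rw [Finset.sum_apply]
    simp only [Pi.smul_apply, Pi.sub_apply, smul_eq_mul, mul_sub, Finset.sum_sub_distrib]
    congr 1
    · rw [Finset.sum_eq_single a]
      · rw [Pi.single_eq_same, mul_one]
      · intro b _ hb
        rw [Pi.single_eq_of_ne (Ne.symm hb), mul_zero]
      · intro h; exact absurd (mem_univ a) h
    · by_cases ha : a = (0, 0)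
      · rw [ha, Pi.single_eq_same]
        exact Finset.sum_congr rfl fun j _ => by rw [Pi.single_eq_same]
      · rw [Pi.single_eq_of_ne ha]
        exact Finset.sum_eq_zero fun j _ => by rw [Pi.single_eq_of_ne ha, mul_zero]
  rw [e1] at h
  exact h

theorem stab_norm {p : ℕ} (hp : 2 ≤ p) {D : HT (Emb f e) d → A} (hD : AltTw p D)
    (c : Emb f e → ℤ) :
    ∃ N : ℤ, 0 ≤ N ∧ N < (p : ℤ) ^ f - 1 ∧
      (c - Pi.single (0, 0) N : Emb f e → ℤ) ∈ stab D := by
  obtain ⟨N, hN⟩ := stab_all hD c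
  have hf : 1 ≤ f := Nat.one_le_iff_ne_zero.2 (NeZero.ne f)
  have hq : (2 : ℤ) ≤ (p : ℤ) ^ f := by
    have h1 : (2 : ℤ) ≤ p := by exact_mod_cast hp
    calc (2 : ℤ) ≤ p := h1
      _ = (p : ℤ) ^ 1 := (pow_one _).symm
      _ ≤ (p : ℤ) ^ f := pow_le_pow_right₀ (by linarith) hf
  have hper : (Pi.single (0, 0) ((p : ℤ) ^ f - 1) : Emb f e → ℤ) ∈ stab D := by
    have h := stab_pow hD (f - 1) (0 : Fin e)
    have e1 : (((f - 1 : ℕ) : ZMod f) + 1) = 0 := by
      have : (((f - 1 + 1 : ℕ)) : ZMod f) = 0 := by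
        rw [Nat.sub_add_cancel hf]; exact ZMod.natCast_self f
      push_cast at this
      exact this
    rw [e1, Nat.sub_add_cancel hf, ← Pi.single_sub] at h
    have h' := (stab D).neg_mem h
    rw [← Pi.single_neg, neg_sub] at h'
    exact h'
  refine ⟨N % ((p : ℤ) ^ f - 1), Int.emod_nonneg _ (by linarith), Int.emod_lt_of_pos _ (by linarith), ?_⟩
  have h := (stab D).add_mem hN ((stab D).zsmul_mem hper (N / ((p : ℤ) ^ f - 1)))
  rw [← Pi.single_smul, smul_eq_mul] at h
  have e2 : (c - Pi.single (0, 0) (N % ((p : ℤ) ^ f - 1)) : Emb f e → ℤ) =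
      c - Pi.single (0, 0) N + Pi.single (0, 0) (N / ((p : ℤ) ^ f - 1) * ((p : ℤ) ^ f - 1)) := by
    rw [sub_add, ← Pi.single_sub]
    congr 2
    have := Int.emod_add_mul_ediv N ((p : ℤ) ^ f - 1)
    linarith
  rw [e2]
  exact h

theorem small_case {p : ℕ} (hp : 2 ≤ p) {D : HT (Emb f e) d → A} (hD : AltTw p D)
    (hl : ∀ l, IsLift p l → D l = 0) : ∀ l : HT (Emb f e) d, Reg l →
    (∀ (j : Emb f e) (s : ℕ) (h : s + 1 < d),
      l j ⟨s, (Nat.lt_succ_self s).trans h⟩ - l j ⟨s + 1, h⟩ ≤ if j.2 = 0 then (p : ℤ) else 1) →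
    D l = 0 := by
  intro l hreg hs
  obtain ⟨N, hN0, hN1, hN⟩ := stab_norm hp hD (fun j => l j (Fin.rev 0))
  set b : HT (Emb f e) d := l + cst (-(fun j => l j (Fin.rev 0)) + Pi.single (0, 0) N) with hb
  have hbreg : Reg b := (reg_add_cst _ _).2 hreg
  have hbv : ∀ j s, b j s = l j s + (-(l j (Fin.rev 0)) +
      (Pi.single (0, 0) N : Emb f e → ℤ) j) := by
    intro j s; rfl
  have hlift : IsLift p b := by
    refine ⟨hbreg, ?_, ?_, ?_, ?_, ?_⟩
    · intro i s h
      have := hs (i, 0) s h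
      simp only [if_true] at this
      rw [hbv, hbv]; linarith
    · intro i t ht s h
      have h1 := hs (i, t) s h
      simp only [ht, if_false] at h1
      have h2 : l (i, t) ⟨s + 1, h⟩ < l (i, t) ⟨s, (Nat.lt_succ_self s).trans h⟩ :=
        hreg (i, t) (Fin.lt_def.2 (by simp))
      rw [hbv, hbv]
      have : l (i, t) ⟨s, (Nat.lt_succ_self s).trans h⟩ - l (i, t) ⟨s + 1, h⟩ = 1 := by omega
      linarith
    · intro j hj
      rw [hbv, Pi.single_eq_of_ne hj]; ring
    · rw [hbv, Pi.single_eq_same]; linarith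
    · rw [hbv, Pi.single_eq_same]; linarith
  have h1 := hN b
  have h2 : b + cst ((fun j => l j (Fin.rev 0)) - Pi.single (0, 0) N) = l := by
    funext j s
    simp only [Pi.add_apply, cst, Pi.sub_apply, hbv]
    ring
  rw [h2, alt_of_reg D hreg, alt_of_reg D hbreg, hl b hlift] at h1
  exact h1

/-- **Main reduction.** A function on regular labelled weights whose antisymmetric extension
satisfies the relations vanishes if it vanishes on the lifts of Serre weights. -/
theorem vanish {p : ℕ} (hp : 2 ≤ p) {D : HT (Emb f e) d → A} (hD : ElemRel p D)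
    (hl : ∀ l, IsLift p l → D l = 0) : ∀ l, Reg l → D l = 0 := by
  have hp1 : (2 : ℤ) ≤ p := by exact_mod_cast hp
  refine reduce D (fun j => if j.2 = 0 then (p : ℤ) else 1) (fun _ => 1)
    (fun j => if j.2 = 0 then (j.1 + 1, 0) else (j.1, 0)) (fun j => if j.2 = 0 then 1 else 2)
    ?_ ?_ ?_ ?_ ?_ (small_case hp hD.tw hl)
  · intro j; split_ifs <;> linarith
  · intro j; norm_num
  · intro j; split_ifs <;> norm_num
  · intro j
    by_cases h : j.2 = 0
    · simp only [h, if_true]; linarith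
    · simp only [h, if_false, if_true]; norm_num
  · rintro ⟨i, t⟩ k _ hk l
    dsimp only
    split_ifs with h
    · subst h
      exact hD i 0 0 k hk.le l
    · have h1 := hD (i - 1) 0 t k hk.le l
      have h2 := hD (i - 1) 0 0 k hk.le l
      rw [sub_add_cancel] at h1 h2
      rw [← h1, ← h2]

/-- One-sided relations. -/
def IneqRel (p : ℕ) (Z : HT (Emb f e) d → ℤ) : Prop :=
  (∀ (i : ZMod f) (k : ℕ), 1 ≤ k → k < d → ∀ l : HT (Emb f e) d,
    ∑ S ∈ powersetCard k univ, alt Z (l + bump (i, 0) S p) ≤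
      ∑ S ∈ powersetCard k univ, alt Z (l + bump (i + 1, 0) S 1)) ∧
  (∀ (i : ZMod f) (t : Fin e) (k : ℕ), 1 ≤ k → k < d → ∀ l : HT (Emb f e) d,
    ∑ S ∈ powersetCard k univ, alt Z (l + bump (i, t) S 1) ≤
      ∑ S ∈ powersetCard k univ, alt Z (l + bump (i, 0) S 1))

/-- **One-sided reduction.** -/
theorem vanish_le {p : ℕ} (hp : 2 ≤ p) {D : HT (Emb f e) d → ℤ} (hpos : ∀ l, Reg l → 0 ≤ D l)
    (hT : AltTw p D) (hD : IneqRel p D)
    (hl : ∀ l, IsLift p l → D l = 0) : ∀ l, Reg l → D l = 0 := by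
  have hp1 : (2 : ℤ) ≤ p := by exact_mod_cast hp
  refine reduce_le D hpos (fun j => if j.2 = 0 then (p : ℤ) else 1) (fun _ => 1)
    (fun j => if j.2 = 0 then (j.1 + 1, 0) else (j.1, 0)) (fun j => if j.2 = 0 then 1 else 2)
    ?_ ?_ ?_ ?_ ?_ (small_case hp hT hl)
  · intro j; split_ifs <;> linarith
  · intro j; norm_num
  · intro j; split_ifs <;> norm_num
  · intro j
    by_cases h : j.2 = 0
    · simp only [h, if_true]; linarith
    · simp only [h, if_false, if_true]; norm_num
  · rintro ⟨i, t⟩ k hk1 hk l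
    dsimp only
    split_ifs with h
    · subst h
      exact hD.1 i k hk1 hk l
    · exact hD.2 i t k hk1 hk l

end

end Q148.BM
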