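import Mathlib
import Pool.Agent.Q148.BM.Lift

/-!
# Criteria for the Breuil–Mézard conjecture
-/

namespace Q148.BM

open Finset

set_option linter.unusedSectionVars false

section

variable {f e d : ℕ} [NeZero f] [NeZero e] [NeZero d] {A : Type*} [AddCommGroup A]

theorem elem_sub_sum {p : ℕ} {W : Type*} [Fintype W] {Z : HT (Emb f e) d → A}
    (hZ : ElemRel p Z) {n : W → HT (Emb f e) d → ℤ} (hn : ∀ k, ElemRel p (n k)) (μ : W → A) :
    ElemRel p (fun l => Z l - ∑ k, n k l • μ k) := by
  intro i t t' a ha l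
  have key : ∀ m : HT (Emb f e) d, alt (fun l => Z l - ∑ k, n k l • μ k) m =
      alt Z m - ∑ k, alt (n k) m • μ k := by
    intro m
    rw [alt_sub, alt_sum]
    simp only [alt_smul_right]
  simp only [key, Finset.sum_sub_distrib]
  rw [hZ i t t' a ha l, Finset.sum_comm]
  conv_rhs => rw [Finset.sum_comm]
  congr 1
  refine Finset.sum_congr rfl fun k _ => ?_
  rw [← Finset.sum_smul, ← Finset.sum_smul, hn k i t t' a ha l]

theorem pow_sum {p h : ℕ} {W : Type*} [Fintype W] {Z : HT (Emb f e) d → A}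
    {n : W → HT (Emb f e) d → ℤ} (hn : ∀ k, PowRel p h (n k)) (μ : W → A)
    (hZ : ∀ l, Reg l → Z l = ∑ k, n k l • μ k) : PowRel p h Z := by
  intro i t t' m h1 h2 l
  have key : ∀ m : HT (Emb f e) d, alt Z m = ∑ k, alt (n k) m • μ k := by
    intro m
    rw [alt_congr hZ m, alt_sum]
    simp only [alt_smul_right]
  simp only [key]
  rw [Finset.sum_comm]
  conv_rhs => rw [Finset.sum_comm]
  refine Finset.sum_congr rfl fun k _ => ?_
  rw [← Finset.sum_smul, ← Finset.sum_smul, hn k i t t' m h1 h2 l]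

theorem PowRel.mono {p h h' : ℕ} {Z : HT (Emb f e) d → A} (hZ : PowRel p h Z) (hh : h' ≤ h) :
    PowRel p h' Z := fun i t t' m h1 h2 l => hZ i t t' m h1 (h2.trans hh) l

/-- Typed criterion with fixed weights: all regular weights from lifts of Serre weights. -/
theorem extend {p : ℕ} (hp : 2 ≤ p) {W : Type*} [Fintype W] {Z : HT (Emb f e) d → A}
    (hZ : ElemRel p Z) {n : W → HT (Emb f e) d → ℤ} (hn : ∀ k, PowRel p d (n k)) (μ : W → A)
    (hl : ∀ l, IsLift p l → Z l = ∑ k, n k l • μ k) :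
    ∀ l, Reg l → Z l = ∑ k, n k l • μ k := by
  intro l hreg
  have hE := elem_sub_sum hZ (fun k => elem_of_pow_full (hn k)) μ
  have := vanish hp hE (fun b hb => sub_eq_zero.2 (hl b hb)) l hreg
  exact sub_eq_zero.1 this

/-! ## Lifts of Serre weights form a basis -/

/-- the set of lifts of Serre weights -/
abbrev Lifts (p f e d : ℕ) [NeZero f] [NeZero e] [NeZero d] :=
  {l : HT (Emb f e) d // IsLift p l}

theorem lifts_inj (p : ℕ) (hp : 2 ≤ p) :
    ∃ F : Lifts p f e d → (ZMod f → Fin (d - 1) → Fin p) × Fin (p ^ f - 1),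
      Function.Injective F := by
  have hgap : ∀ (l : Lifts p f e d) (i : ZMod f) (s : ℕ) (h : s + 1 < d),
      (l.1 (i, 0) ⟨s, (Nat.lt_succ_self s).trans h⟩ - l.1 (i, 0) ⟨s + 1, h⟩ - 1).toNat < p := by
    intro l i s h
    have h1 := l.2.2.1 i s h
    omega
  have hlast : ∀ l : Lifts p f e d, (l.1 (0, 0) (Fin.rev 0)).toNat < p ^ f - 1 := by
    intro l
    have h1 := l.2.2.2.2.2
    have h2 := l.2.2.2.2.1
    have h3 : 1 ≤ p ^ f := Nat.one_le_pow _ _ (by omega)
    have h4 : ((p ^ f - 1 : ℕ) : ℤ) = (p : ℤ) ^ f - 1 := by push_cast [h3]; ring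
    omega
  refine ⟨fun l => (fun i s => ⟨_, hgap l i s.1 (by omega)⟩, ⟨_, hlast l⟩), ?_⟩
  intro l l' hll
  rw [Prod.mk.injEq] at hll
  obtain ⟨hA, hB⟩ := hll
  have gapeq : ∀ (j : Emb f e) (s : ℕ) (h : s + 1 < d),
      l.1 j ⟨s, (Nat.lt_succ_self s).trans h⟩ - l.1 j ⟨s + 1, h⟩ =
        l'.1 j ⟨s, (Nat.lt_succ_self s).trans h⟩ - l'.1 j ⟨s + 1, h⟩ := by
    rintro ⟨i, t⟩ s h
    by_cases ht : t = 0
    · subst ht
      have h1 := congrFun (congrFun hA i) ⟨s, by omega⟩
      rw [Fin.mk.injEq] at h1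
      have h2 : l.1 (i, 0) ⟨s + 1, h⟩ < l.1 (i, 0) ⟨s, (Nat.lt_succ_self s).trans h⟩ :=
        l.2.1 (i, 0) (Fin.lt_def.2 (by simp))
      have h3 : l'.1 (i, 0) ⟨s + 1, h⟩ < l'.1 (i, 0) ⟨s, (Nat.lt_succ_self s).trans h⟩ :=
        l'.2.1 (i, 0) (Fin.lt_def.2 (by simp))
      simp only at h1
      omega
    · rw [l.2.2.2.1 i t ht s h, l'.2.2.2.1 i t ht s h]
  have lasteq : ∀ j : Emb f e, l.1 j (Fin.rev 0) = l'.1 j (Fin.rev 0) := by
    intro j
    by_cases hj : j = (0, 0)
    · subst hj
      rw [Fin.mk.injEq] at hB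
      have h2 := l.2.2.2.2.2.1
      have h3 := l'.2.2.2.2.2.1
      omega
    · rw [l.2.2.2.2.1 j hj, l'.2.2.2.2.1 j hj]
  apply Subtype.ext
  funext j
  have hd : 0 < d := Nat.pos_of_ne_zero (NeZero.ne d)
  have main : ∀ (k : ℕ) (s : ℕ) (h : s < d), s + k + 1 = d → l.1 j ⟨s, h⟩ = l'.1 j ⟨s, h⟩ := by
    intro k
    induction k with
    | zero =>
      intro s h hs
      have : (⟨s, h⟩ : Fin d) = Fin.rev 0 := by
        ext; simp [Fin.val_rev]; omega
      rw [this]; exact lasteq j
    | succ k ih =>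
      intro s h hs
      have h1 : s + 1 < d := by omega
      have h2 := ih (s + 1) h1 (by omega)
      have h3 := gapeq j s h1
      linarith
  funext s
  exact main (d - 1 - s.1) s.1 s.2 (by omega)

/-- The multiplicity vectors of the lifts span. -/
theorem lifts_span {p : ℕ} (hp : 2 ≤ p) {W : Type*}
    {n : W → HT (Emb f e) d → ℤ} (hn : ∀ k, PowRel p d (n k))
    (hspan : Submodule.span ℤ {v : W → ℤ | ∃ l, Reg l ∧ v = fun k => n k l} = ⊤) :
    Submodule.span ℤ (Set.range fun b : Lifts p f e d => (fun k => n k b.1 : W → ℤ)) = ⊤ := by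
  let v : HT (Emb f e) d → (W → ℤ) := fun l k => n k l
  let L : Submodule ℤ (W → ℤ) := Submodule.span ℤ (Set.range fun b : Lifts p f e d => v b.1)
  have hvE : ElemRel p v := by
    intro i t t' a ha l
    funext k
    have hk : ∀ m : HT (Emb f e) d, alt v m k = alt (n k) m := by
      intro m
      exact (alt_map (Pi.evalAddMonoidHom (fun _ : W => ℤ) k) v m).symm
    rw [Finset.sum_apply, Finset.sum_apply]
    simp only [hk]
    exact elem_of_pow_full (hn k) i t t' a ha l
  have hLv : ∀ l, Reg l → v l ∈ L := by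
    intro l hl
    have hE : ElemRel p (fun l => (L.mkQ.toAddMonoidHom) (v l)) := by
      intro i t t' a ha l
      simp only [alt_map, ← map_sum]
      rw [hvE i t t' a ha l]
    have := vanish hp hE (fun b hb => by
      change L.mkQ (v b) = 0
      rw [Submodule.mkQ_apply, Submodule.Quotient.mk_eq_zero]
      exact Submodule.subset_span ⟨⟨b, hb⟩, rfl⟩) l hl
    change L.mkQ (v l) = 0 at this
    rwa [Submodule.mkQ_apply, Submodule.Quotient.mk_eq_zero] at this
  change L = ⊤
  rw [eq_top_iff, ← hspan, Submodule.span_le]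
  rintro w ⟨l, hl, rfl⟩
  exact hLv l hl

/-- If the vectors of multiplicities satisfy the relations, span, and their number of
coordinates is `(p ^ f - 1) p ^ (f (d - 1))`, then every function satisfying the relations is a
combination of them. -/
theorem exists_cycles {p : ℕ} (hp : 2 ≤ p) {W : Type*} [Fintype W] [DecidableEq W]
    (hW : Fintype.card W = (p ^ f - 1) * p ^ (f * (d - 1)))
    {n : W → HT (Emb f e) d → ℤ} (hn : ∀ k, PowRel p d (n k))
    (hspan : Submodule.span ℤ {v : W → ℤ | ∃ l, Reg l ∧ v = fun k => n k l} = ⊤)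
    {Z : HT (Emb f e) d → A} (hZ : ElemRel p Z) :
    ∃ μ : W → A, ∀ l, Reg l → Z l = ∑ k, n k l • μ k := by
  classical
  obtain ⟨F, hF⟩ := lifts_inj (f := f) (e := e) (d := d) p hp
  have : Finite (Lifts p f e d) := Finite.of_injective F hF
  let _ : Fintype (Lifts p f e d) := Fintype.ofFinite _
  let v : HT (Emb f e) d → (W → ℤ) := fun l k => n k l
  have hL := lifts_span hp hn hspan
  let Φ : (Lifts p f e d → ℤ) →ₗ[ℤ] (W → ℤ) :=
    Fintype.linearCombination ℤ (fun b : Lifts p f e d => v b.1)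
  have hΦ : ∀ c, Φ c = ∑ b, c b • v b.1 := fun c => Fintype.linearCombination_apply ℤ _ c
  have hsurj : Function.Surjective Φ := by
    rw [← LinearMap.range_eq_top, Fintype.range_linearCombination]
    exact hL
  have hcard : Fintype.card (Lifts p f e d) = Fintype.card W := by
    apply le_antisymm
    · rw [hW]
      refine (Fintype.card_le_of_injective F hF).trans ?_
      rw [Fintype.card_prod, Fintype.card_fun, Fintype.card_fun]
      simp only [Fintype.card_fin, ZMod.card]
      rw [← pow_mul, mul_comm (d - 1) f, mul_comm]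
    · have h1 := LinearMap.finrank_range_le Φ
      rw [LinearMap.range_eq_top.2 hsurj, finrank_top] at h1
      simpa using h1
  let ε : Lifts p f e d ≃ W := Fintype.equivOfCardEq hcard
  have hinj : Function.Injective Φ := by
    let Ψ : (Lifts p f e d → ℤ) →ₗ[ℤ] (Lifts p f e d → ℤ) :=
      (LinearEquiv.funCongrLeft ℤ ℤ ε).toLinearMap ∘ₗ Φ
    have h1 : Function.Surjective Ψ :=
      (LinearEquiv.funCongrLeft ℤ ℤ ε).surjective.comp hsurj
    have h2 : Function.Injective Ψ := OrzechProperty.injective_of_surjective_endomorphism Ψ h1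
    intro a b hab
    exact h2 (by simp [Ψ, hab])
  choose c hc using fun k : W => hsurj (Pi.single k 1)
  refine ⟨fun k => ∑ b, c k b • Z b.1, extend hp hZ hn _ ?_⟩
  intro l hl
  have h1 : ∑ k, n k l • c k = Pi.single (⟨l, hl⟩ : Lifts p f e d) 1 := by
    apply hinj
    rw [map_sum]
    simp only [map_smul, hc]
    rw [hΦ, Finset.sum_eq_single (⟨l, hl⟩ : Lifts p f e d)]
    · rw [Pi.single_eq_same, one_smul]
      funext k
      rw [Finset.sum_apply, Finset.sum_eq_single k]
      · simp [v]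
      · intro b _ hb; simp [Pi.single_eq_of_ne (Ne.symm hb)]
      · intro h; exact absurd (mem_univ k) h
    · intro b _ hb; rw [Pi.single_eq_of_ne hb, zero_smul]
    · intro h; exact absurd (mem_univ _) h
  have h2 : ∑ k, n k l • ∑ b, c k b • Z b.1 = ∑ b, (∑ k, n k l • c k) b • Z b.1 := by
    simp only [Finset.smul_sum, smul_smul]
    rw [Finset.sum_comm]
    refine Finset.sum_congr rfl fun b _ => ?_
    rw [Finset.sum_apply, Finset.sum_smul]
    rfl
  rw [h2, h1, Finset.sum_eq_single (⟨l, hl⟩ : Lifts p f e d)]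
  · rw [Pi.single_eq_same, one_smul]
  · intro b _ hb; rw [Pi.single_eq_of_ne hb, zero_smul]
  · intro h; exact absurd (mem_univ _) h

/-- `m` expresses the vector `v` through the vectors of multiplicities of the lifts. -/
def Comb (p : ℕ) {W : Type*} (n : W → HT (Emb f e) d → ℤ) (v : W → ℤ)
    (m : HT (Emb f e) d →₀ ℤ) : Prop :=
  (∀ b ∈ m.support, IsLift p b) ∧ ∀ k, v k = m.sum fun b c => c * n k b

theorem exists_comb {p : ℕ} (hp : 2 ≤ p) {W : Type*}
    {n : W → HT (Emb f e) d → ℤ} (hn : ∀ k, PowRel p d (n k))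
    (hspan : Submodule.span ℤ {v : W → ℤ | ∃ l, Reg l ∧ v = fun k => n k l} = ⊤) (v : W → ℤ) :
    ∃ m, Comb p n v m := by
  have h : v ∈ Submodule.span ℤ
      (Set.range fun b : Lifts p f e d => (fun k => n k b.1 : W → ℤ)) := by
    rw [lifts_span hp hn hspan]; trivial
  rw [Finsupp.mem_span_range_iff_exists_finsupp] at h
  obtain ⟨c, hc⟩ := h
  refine ⟨c.mapDomain Subtype.val, ?_, ?_⟩
  · intro b hb
    classical
    have := Finsupp.mapDomain_support hb
    rw [Finset.mem_image] at this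
    obtain ⟨x, _, rfl⟩ := this
    exact x.2
  · intro k
    rw [Finsupp.sum_mapDomain_index (by simp) (by intro b x y; ring), ← hc]
    simp [Finsupp.sum, Finset.sum_apply]

theorem comb_sum {p : ℕ} {W : Type*} [Fintype W] {n : W → HT (Emb f e) d → ℤ} {v : W → ℤ}
    {m : HT (Emb f e) d →₀ ℤ} (hm : Comb p n v m) {Z : HT (Emb f e) d → A} {μ : W → A}
    (hZ : ∀ l, Reg l → Z l = ∑ k, n k l • μ k) :
    (m.sum fun b c => c • Z b) = ∑ k, v k • μ k := by
  have h1 : (m.sum fun b c => c • Z b) = m.sum fun b c => ∑ k, (c * n k b) • μ k := by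
    refine Finset.sum_congr rfl fun b hb => ?_
    beta_reduce
    rw [hZ b (hm.1 b hb).1, Finset.smul_sum]
    simp only [mul_smul]
  rw [h1]
  simp only [Finsupp.sum]
  rw [Finset.sum_comm]
  refine Finset.sum_congr rfl fun k _ => ?_
  rw [hm.2 k, Finsupp.sum, Finset.sum_smul]

/-- relations for a family with duality -/
theorem elem_family [IsAddTorsionFree A] {p : ℕ} {R T : Type*} (E : R → T → HT (Emb f e) d → A)
    (htw : ∀ r t, TwistRel p (E r t)) (dR : R ≃ R) (dT : T ≃ T) (ι : A ≃+ A)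
    (hdual : ∀ r t l, Reg l → E r t (revNeg l) = ι (E (dR r) (dT t) l))
    (hE : ∀ r t, PowRel p (d / 2) (E r t)) : ∀ r t, ElemRel p (E r t) := by
  let Z : HT (Emb f e) d → (R × T → A) := fun l x => E x.1 x.2 l
  have hk : ∀ (m : HT (Emb f e) d) (x : R × T), alt Z m x = alt (E x.1 x.2) m := by
    intro m x
    exact (alt_map (Pi.evalAddMonoidHom (fun _ : R × T => A) x) Z m).symm
  let κ : (R × T → A) ≃+ (R × T → A) :=
    { toFun := fun F x => ι (F (dR x.1, dT x.2))
      invFun := fun F x => ι.symm (F (dR.symm x.1, dT.symm x.2))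
      left_inv := by intro F; funext x; simp
      right_inv := by intro F; funext x; simp
      map_add' := by intro F G; funext x; simp }
  have hP : PowRel p (d / 2) Z := by
    intro i t t' m h1 h2 l
    funext x
    rw [Finset.sum_apply, Finset.sum_apply]
    simp only [hk]
    exact hE x.1 x.2 i t t' m h1 h2 l
  have hT : TwistRel p Z := by
    intro i t t' l hl
    funext x
    exact htw x.1 x.2 i t t' l hl
  have hZ : ElemRel p Z := elem_of_pow (h := d / 2) (h' := d / 2) (by omega) hP hT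
    (Or.inr ⟨le_rfl, κ, fun l hl => by funext x; exact hdual x.1 x.2 l hl⟩)
  intro r t i a b k h1 l
  have := congrFun (hZ i a b k h1 l) (r, t)
  rw [Finset.sum_apply, Finset.sum_apply] at this
  simpa only [hk] using this

/-- **Criterion for cycles.** -/
theorem criterion_cycles [IsAddTorsionFree A] {p : ℕ} (hp : 2 ≤ p) {T W : Type*} [Fintype W]
    (hW : Fintype.card W = (p ^ f - 1) * p ^ (f * (d - 1))) (t0 : T)
    (n : T → W → HT (Emb f e) d → ℤ) (hn : ∀ t k, PowRel p d (n t k))
    (hspan : Submodule.span ℤ {v : W → ℤ | ∃ l, Reg l ∧ v = fun k => n t0 k l} = ⊤)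
    (Z : T → HT (Emb f e) d → A) (htw : ∀ t, TwistRel p (Z t)) (dT : T ≃ T) (ι : A ≃+ A)
    (hdual : ∀ t l, Reg l → Z t (revNeg l) = ι (Z (dT t) l)) :
    (∃ μ : W → A, ∀ t l, Reg l → Z t l = ∑ k, n t k l • μ k) ↔
      (∀ t, PowRel p (d / 2) (Z t)) ∧
      (∀ t b, IsLift p b → ∀ m, Comb p (n t0) (fun k => n t k b) m →
        Z t b = m.sum fun b' c => c • Z t0 b') := by
  classical
  constructor
  · rintro ⟨μ, hμ⟩
    refine ⟨fun t => pow_sum (fun k => (hn t k).mono (Nat.div_le_self d 2)) μ (hμ t), ?_⟩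
    intro t b hb m hm
    rw [comb_sum hm (hμ t0), hμ t b hb.1]
  · rintro ⟨h1, h2⟩
    have hE := elem_family (R := Unit) (fun _ => Z) (fun _ => htw) (Equiv.refl _) dT ι
      (fun _ => hdual) (fun _ => h1)
    obtain ⟨μ, hμ⟩ := exists_cycles hp hW (hn t0) hspan (hE () t0)
    refine ⟨μ, fun t => extend hp (hE () t) (hn t) μ ?_⟩
    intro b hb
    obtain ⟨m, hm⟩ := exists_comb hp (hn t0) hspan (fun k => n t k b)
    rw [h2 t b hb m hm, comb_sum hm hμ]

/-- **Criterion for multiplicities.** -/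
theorem criterion_num {p : ℕ} (hp : 2 ≤ p) {R T W : Type*} [Fintype W] [DecidableEq W]
    (hW : Fintype.card W = (p ^ f - 1) * p ^ (f * (d - 1))) (t0 : T)
    (n : T → W → HT (Emb f e) d → ℤ) (hn : ∀ t k, PowRel p d (n t k))
    (hspan : Submodule.span ℤ {v : W → ℤ | ∃ l, Reg l ∧ v = fun k => n t0 k l} = ⊤)
    (E : R → T → HT (Emb f e) d → ℤ) (htw : ∀ r t, TwistRel p (E r t)) (dR : R ≃ R) (dT : T ≃ T)
    (hdual : ∀ r t l, Reg l → E r t (revNeg l) = E (dR r) (dT t) l) :
    (∀ r, ∃ μ : W → ℤ, (∀ k, 0 ≤ μ k) ∧ ∀ t l, Reg l → E r t l = ∑ k, n t k l * μ k) ↔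
      (∀ r t, PowRel p (d / 2) (E r t)) ∧
      (∀ r t b, IsLift p b → ∀ m, Comb p (n t0) (fun k => n t k b) m →
        E r t b = m.sum fun b' c => c * E r t0 b') ∧
      (∀ r k m, Comb p (n t0) (Pi.single k 1) m → 0 ≤ m.sum fun b' c => c * E r t0 b') := by
  constructor
  · intro h
    choose μ hμ using h
    refine ⟨fun r t => pow_sum (fun k => (hn t k).mono (Nat.div_le_self d 2)) (μ r)
      (by simpa using (hμ r).2 t), ?_, ?_⟩
    · intro r t b hb m hm
      have := comb_sum hm (Z := E r t0) (μ := μ r) (by simpa using (hμ r).2 t0)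
      simp only [smul_eq_mul] at this
      rw [this, (hμ r).2 t b hb.1]
    · intro r k m hm
      have := comb_sum hm (Z := E r t0) (μ := μ r) (by simpa using (hμ r).2 t0)
      simp only [smul_eq_mul] at this
      rw [this, Finset.sum_eq_single k]
      · simpa using (hμ r).1 k
      · intro b _ hb; simp [Pi.single_eq_of_ne hb]
      · intro h; exact absurd (mem_univ k) h
  · rintro ⟨h1, h2, h3⟩ r
    have hE := elem_family E htw dR dT (AddEquiv.refl ℤ) hdual h1
    obtain ⟨μ, hμ⟩ := exists_cycles hp hW (hn t0) hspan (hE r t0)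
    refine ⟨μ, ?_, ?_⟩
    · intro k
      obtain ⟨m, hm⟩ := exists_comb hp (hn t0) hspan (Pi.single k 1)
      have h4 := h3 r k m hm
      have := comb_sum hm (Z := E r t0) (μ := μ) hμ
      simp only [smul_eq_mul] at this
      rw [this, Finset.sum_eq_single k] at h4
      · simpa using h4
      · intro b _ hb; simp [Pi.single_eq_of_ne hb]
      · intro h; exact absurd (mem_univ k) h
    · intro t l hl
      have := extend hp (hE r t) (hn t) μ (fun b hb => by
        obtain ⟨m, hm⟩ := exists_comb hp (hn t0) hspan (fun k => n t k b)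
        have h5 := h2 r t b hb m hm
        have h6 := comb_sum hm (Z := E r t0) (μ := μ) hμ
        simp only [smul_eq_mul] at h6 ⊢
        rw [h5, h6]) l hl
      simpa using this

/-- **One-sided criterion for multiplicities.** -/
theorem one_sided {p : ℕ} (hp : 2 ≤ p) {T W : Type*} [Fintype W]
    (n : T → W → HT (Emb f e) d → ℤ) (hn : ∀ t k, PowRel p d (n t k))
    (E : T → HT (Emb f e) d → ℤ) (htw : ∀ t, TwistRel p (E t)) (μ : W → ℤ)
    (hlow : ∀ t l, Reg l → ∑ k, n t k l * μ k ≤ E t l)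
    (hlift : ∀ t b, IsLift p b → E t b = ∑ k, n t k b * μ k) :
    (∀ t l, Reg l → E t l = ∑ k, n t k l * μ k) ↔ ∀ t, IneqRel p (E t) := by
  have key : ∀ t (m : HT (Emb f e) d), alt (fun l => ∑ k, n t k l • μ k) m =
      ∑ k, alt (n t k) m • μ k := by
    intro t m
    rw [alt_sum]
    simp only [alt_smul_right]
  have hN : ∀ t (i : ZMod f) (a a' : Fin e) (k : ℕ), k ≤ d → ∀ l : HT (Emb f e) d,
      ∑ S ∈ powersetCard k univ, alt (fun l => ∑ k, n t k l • μ k) (l + bump (i, a) S p) =
      ∑ S ∈ powersetCard k univ, alt (fun l => ∑ k, n t k l • μ k)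
        (l + bump (i + 1, a') S 1) := by
    intro t
    have := pow_sum (p := p) (h := d) (Z := fun l => ∑ k, n t k l • μ k) (hn t) μ
      (fun _ _ => rfl)
    exact elem_of_pow_full this
  have hN2 : ∀ t (i : ZMod f) (a : Fin e) (k : ℕ), k ≤ d → ∀ l : HT (Emb f e) d,
      ∑ S ∈ powersetCard k univ, alt (fun l => ∑ k, n t k l • μ k) (l + bump (i, a) S 1) =
      ∑ S ∈ powersetCard k univ, alt (fun l => ∑ k, n t k l • μ k) (l + bump (i, 0) S 1) := by
    intro t i a k hk l
    have h1 := hN t (i - 1) 0 a k hk l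
    have h2 := hN t (i - 1) 0 0 k hk l
    rw [sub_add_cancel] at h1 h2
    rw [← h1, ← h2]
  constructor
  · intro h t
    have hc : ∀ m : HT (Emb f e) d, alt (E t) m = alt (fun l => ∑ k, n t k l • μ k) m :=
      fun m => alt_congr (by simpa using h t) m
    refine ⟨fun i k h1 h2 l => ?_, fun i a k h1 h2 l => ?_⟩
    · simp only [hc]
      exact (hN t i 0 0 k h2.le l).le
    · simp only [hc]
      exact (hN2 t i a k h2.le l).le
  · intro h t
    have hD : ∀ m : HT (Emb f e) d, alt (fun l => E t l - ∑ k, n t k l • μ k) m =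
        alt (E t) m - alt (fun l => ∑ k, n t k l • μ k) m := fun m => alt_sub _ _ m
    have hz := vanish_le hp (D := fun l => E t l - ∑ k, n t k l • μ k)
      (fun l hl => by simpa using hlow t l hl) ?_ ?_ ?_
    · intro l hl
      have := hz l hl
      simp only [smul_eq_mul] at this
      linarith
    · intro i a a' l
      rw [hD, hD, (htw t).tw i a a' l]
      congr 1
      have := pow_sum (p := p) (h := d) (Z := fun l => ∑ k, n t k l • μ k) (hn t) μ
        (fun _ _ => rfl)
      exact (elem_of_pow_full this).tw i a a' l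
    · refine ⟨fun i k h1 h2 l => ?_, fun i a k h1 h2 l => ?_⟩
      · simp only [hD, Finset.sum_sub_distrib]
        rw [hN t i 0 0 k h2.le l]
        exact sub_le_sub_right ((h t).1 i k h1 h2 l) _
      · simp only [hD, Finset.sum_sub_distrib]
        rw [hN2 t i a k h2.le l]
        exact sub_le_sub_right ((h t).2 i a k h1 h2 l) _
    · intro b hb
      simp [hlift t b hb]

end

end Q148.BM
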