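import Mathlib
import Pool.Agent.Q148.BM.Main

/-!
# One-sided relations at regular weights
-/

namespace Q148.BM

open Finset

section reduction

set_option linter.unusedSectionVars false

variable {J : Type*} [Fintype J] [DecidableEq J] {d : ℕ} {A : Type*} [AddCommGroup A]

theorem reduce_gen_reg (D : HT J d → A) (c c' : J → ℤ) (r : J → J) (w : J → ℤ)
    (hc : ∀ j, 0 < c j) (hc' : ∀ j, 0 ≤ c' j) (hw : ∀ j, 0 ≤ w j)
    (hww : ∀ j, w (r j) * c' j < w j * c j)
    (hstep : ∀ j i, 1 ≤ i → i < d → ∀ (l : HT J d) (S0 : Finset (Fin d)), S0.card = i →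
      Reg l → Reg (l + bump j S0 (c j)) →
      (∀ S ∈ powersetCard i univ, S ≠ S0 → alt D (l + bump j S (c j)) = 0) →
      (∀ S ∈ powersetCard i univ, alt D (l + bump (r j) S (c' j)) = 0) →
      D (l + bump j S0 (c j)) = 0)
    (hsmall : ∀ l, Reg l → (∀ j (s : ℕ) (h : s + 1 < d),
      l j ⟨s, (Nat.lt_succ_self s).trans h⟩ - l j ⟨s + 1, h⟩ ≤ c j) → D l = 0) :
    ∀ l, Reg l → D l = 0 := by
  classical
  have main : ∀ n : ℕ, ∀ l : HT J d, Reg l → (mea w l).toNat = n → D l = 0 := by
    intro n
    induction n using Nat.strong_induction_on with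
    | _ n ih =>
      intro l hl hn
      by_cases hs : ∀ j (s : ℕ) (h : s + 1 < d),
          l j ⟨s, (Nat.lt_succ_self s).trans h⟩ - l j ⟨s + 1, h⟩ ≤ c j
      · exact hsmall l hl hs
      push Not at hs
      obtain ⟨j, s, h, hgap⟩ := hs
      -- everything of smaller measure vanishes
      have hless : ∀ m : HT J d, mea w m < mea w l → alt D m = 0 := by
        intro m hm
        refine alt_eq_zero D fun u hu => ?_
        refine ih _ ?_ _ hu rfl
        rw [mea_perm, ← hn]
        have h0 := mea_nonneg hw m
        omega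
      set i := s + 1 with hi
      set S0 : Finset (Fin d) := univ.filter fun a : Fin d => a.val < i with hS0
      have hcard : S0.card = i := by
        rw [hS0, Fin.card_filter_val_lt]
        exact min_eq_right h.le
      have hmem : ∀ a, a ∈ S0 ↔ a.val < i := fun a => by simp [hS0]
      set l' : HT J d := l - bump j S0 (c j) with hl'
      have hll : l' + bump j S0 (c j) = l := by rw [hl']; simp
      have hlj : ∀ a, l j a = l' j a + (if a ∈ S0 then c j else 0) := by
        intro a
        conv_lhs => rw [← hll]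
        simp [bump]
      have hanti : StrictAnti (l' j) := by
        intro a b hab
        have e1 := hlj a
        have e2 := hlj b
        have h1 := hl j hab
        by_cases ha : a ∈ S0 <;> by_cases hb : b ∈ S0
        · simp only [ha, hb, if_true] at e1 e2; linarith
        · simp only [ha, hb, if_true, if_false] at e1 e2
          have ha' := (hmem a).1 ha
          have hb' := mt (hmem b).2 hb
          have g1 : l j ⟨s, (Nat.lt_succ_self s).trans h⟩ ≤ l j a :=
            (hl j).antitone (Fin.le_def.2 (by simp; omega))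
          have g2 : l j b ≤ l j ⟨s + 1, h⟩ :=
            (hl j).antitone (Fin.le_def.2 (by simp; omega))
          linarith
        · exfalso
          have ha' := mt (hmem a).2 ha
          have hb' := (hmem b).1 hb
          have := Fin.lt_def.1 hab
          omega
        · simp only [ha, hb, if_false] at e1 e2; linarith
      set Q : ℤ := 2 * d * (i : ℤ) - 2 * (i : ℤ) ^ 2 with hQ
      have hQpos : 0 < Q := by
        have h1 : (1 : ℤ) ≤ i := by exact_mod_cast (by omega : 1 ≤ i)
        have h2 : (i : ℤ) + 1 ≤ d := by exact_mod_cast (by omega : i + 1 ≤ d)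
        have : Q = 2 * ((i : ℤ) * (d - i)) := by rw [hQ]; ring
        rw [this]
        have : 0 < (i : ℤ) * (d - i) := mul_pos (by linarith) (by linarith)
        linarith
      have hwj : 0 < w j := by
        have h1 := hww j
        have h2 : 0 ≤ w (r j) * c' j := mul_nonneg (hw _) (hc' _)
        by_contra hneg
        have h3 : w j = 0 := le_antisymm (not_lt.1 hneg) (hw j)
        rw [h3, zero_mul] at h1
        linarith
      have hmeal : mea w l = mea w l' + w j * (c j * Q) := by
        conv_lhs => rw [← hll]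
        rw [mea_bump]
        have := spread_eq hanti (i := i) (hc j).le
        rw [← hS0, hcard] at this
        rw [this, ← hQ]; ring
      have hL : ∀ S ∈ powersetCard i univ, S ≠ S0 → alt D (l' + bump j S (c j)) = 0 := by
        intro S hS hne
        have hSc : S.card = i := (mem_powersetCard.1 hS).2
        -- find a < b with a ∉ S, b ∈ S
        have hex : ∃ a b : Fin d, a < b ∧ a ∉ S ∧ b ∈ S := by
          have h1 : ∃ a ∈ S0, a ∉ S := by
            by_contra hcon
            push Not at hcon
            exact hne (Finset.eq_of_subset_of_card_le hcon (by rw [hcard, hSc])).symm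
          have h2 : ∃ b ∈ S, b ∉ S0 := by
            by_contra hcon
            push Not at hcon
            exact hne (Finset.eq_of_subset_of_card_le hcon (by rw [hcard, hSc]))
          obtain ⟨a, ha, haS⟩ := h1
          obtain ⟨b, hb, hbS⟩ := h2
          refine ⟨a, b, ?_, haS, hb⟩
          have ha' := (hmem a).1 ha
          have hb' := mt (hmem b).2 hbS
          exact Fin.lt_def.2 (by omega)
        obtain ⟨a, b, hab, ha, hb⟩ := hex
        refine hless _ ?_
        rw [mea_bump, hmeal]
        have := spread_lt hanti (hc j) hab ha hb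
        rw [hSc, ← hQ] at this
        have h3 : w j * (spread (l' j + ind S (c j)) - spread (l' j)) < w j * (c j * Q) :=
          mul_lt_mul_of_pos_left (by linarith) hwj
        linarith
      have hR : ∀ S ∈ powersetCard i univ, alt D (l' + bump (r j) S (c' j)) = 0 := by
        intro S hS
        refine hless _ ?_
        have hSc : S.card = i := (mem_powersetCard.1 hS).2
        rw [mea_bump, hmeal]
        have := spread_le (l' (r j)) S (hc' j)
        rw [hSc, ← hQ] at this
        have h3 : w (r j) * (spread (l' (r j) + ind S (c' j)) - spread (l' (r j))) ≤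
            w (r j) * (c' j * Q) := mul_le_mul_of_nonneg_left (by linarith) (hw _)
        have h4 : w (r j) * (c' j * Q) < w j * (c j * Q) := by
          have := mul_lt_mul_of_pos_right (hww j) hQpos
          linarith
        linarith
      have hl'reg : Reg l' := by
        intro j'
        by_cases hj' : j' = j
        · rw [hj']; exact hanti
        · have : l' j' = l j' := by
            funext a
            rw [hl']
            simp [bump, hj']
          rw [this]; exact hl j'
      have R := hstep j i (by omega) h l' S0 hcard hl'reg (by rw [hll]; exact hl) hL hR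
      rwa [hll] at R
  intro l hl
  exact main _ l hl rfl


theorem reduce_le_reg (D : HT J d → ℤ) (hpos : ∀ l, Reg l → 0 ≤ D l)
    (c c' : J → ℤ) (r : J → J) (w : J → ℤ)
    (hc : ∀ j, 0 < c j) (hc' : ∀ j, 0 ≤ c' j) (hw : ∀ j, 0 ≤ w j)
    (hww : ∀ j, w (r j) * c' j < w j * c j)
    (hrel : ∀ j i, 1 ≤ i → i < d → ∀ l : HT J d, Reg l →
      ∑ S ∈ powersetCard i univ, alt D (l + bump j S (c j)) ≤
        ∑ S ∈ powersetCard i univ, alt D (l + bump (r j) S (c' j)))
    (hsmall : ∀ l, Reg l → (∀ j (s : ℕ) (h : s + 1 < d),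
      l j ⟨s, (Nat.lt_succ_self s).trans h⟩ - l j ⟨s + 1, h⟩ ≤ c j) → D l = 0) :
    ∀ l, Reg l → D l = 0 := by
  refine reduce_gen_reg D c c' r w hc hc' hw hww ?_ hsmall
  intro j i h1 h2 l S0 hS0 hl hreg hL hR
  have R := hrel j i h1 h2 l hl
  rw [Finset.sum_eq_single S0 hL, Finset.sum_eq_zero hR, alt_of_reg D hreg] at R
  · exact le_antisymm R (hpos _ hreg)
  · intro hS
    exact absurd (mem_powersetCard.2 ⟨subset_univ _, hS0⟩) hS

end reduction

section

variable {f e d : ℕ} [NeZero f] [NeZero e] [NeZero d]

/-- One-sided relations at regular weights. -/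
def IneqReg (p : ℕ) (Z : HT (Emb f e) d → ℤ) : Prop :=
  (∀ (i : ZMod f) (k : ℕ), 1 ≤ k → k < d → ∀ l : HT (Emb f e) d, Reg l →
    ∑ S ∈ powersetCard k univ, alt Z (l + bump (i, 0) S p) ≤
      ∑ S ∈ powersetCard k univ, alt Z (l + bump (i + 1, 0) S 1)) ∧
  (∀ (i : ZMod f) (t : Fin e) (k : ℕ), 1 ≤ k → k < d → ∀ l : HT (Emb f e) d, Reg l →
    ∑ S ∈ powersetCard k univ, alt Z (l + bump (i, t) S 1) ≤
      ∑ S ∈ powersetCard k univ, alt Z (l + bump (i, 0) S 1))

/-- **One-sided reduction.** -/
theorem vanish_reg {p : ℕ} (hp : 2 ≤ p) {D : HT (Emb f e) d → ℤ} (hpos : ∀ l, Reg l → 0 ≤ D l)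
    (hT : AltTw p D) (hD : IneqReg p D)
    (hl : ∀ l, IsLift p l → D l = 0) : ∀ l, Reg l → D l = 0 := by
  have hp1 : (2 : ℤ) ≤ p := by exact_mod_cast hp
  refine reduce_le_reg D hpos (fun j => if j.2 = 0 then (p : ℤ) else 1) (fun _ => 1)
    (fun j => if j.2 = 0 then (j.1 + 1, 0) else (j.1, 0)) (fun j => if j.2 = 0 then 1 else 2)
    ?_ ?_ ?_ ?_ ?_ (small_case hp hT hl)
  · intro j; split_ifs <;> linarith
  · intro j; norm_num
  · intro j; split_ifs <;> norm_num
  · intro j
    by_cases h : j.2 = 0
    · simp only [h, if_true]; linarith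
    · simp only [h, if_false, if_true]; norm_num
  · rintro ⟨i, t⟩ k hk1 hk l hreg
    dsimp only
    split_ifs with h
    · subst h
      exact hD.1 i k hk1 hk l hreg
    · exact hD.2 i t k hk1 hk l hreg

/-- **One-sided criterion for multiplicities.** -/
theorem one_sided_reg {p : ℕ} (hp : 2 ≤ p) {T W : Type*} [Fintype W]
    (n : T → W → HT (Emb f e) d → ℤ) (hn : ∀ t k, PowRel p d (n t k))
    (E : T → HT (Emb f e) d → ℤ) (htw : ∀ t, TwistRel p (E t)) (μ : W → ℤ)
    (hlow : ∀ t l, Reg l → ∑ k, n t k l * μ k ≤ E t l)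
    (hlift : ∀ t b, IsLift p b → E t b = ∑ k, n t k b * μ k) :
    (∀ t l, Reg l → E t l = ∑ k, n t k l * μ k) ↔ ∀ t, IneqReg p (E t) := by
  have hN : ∀ t (i : ZMod f) (a a' : Fin e) (k : ℕ), k ≤ d → ∀ l : HT (Emb f e) d,
      ∑ S ∈ powersetCard k univ, alt (fun l => ∑ k, n t k l • μ k) (l + bump (i, a) S p) =
      ∑ S ∈ powersetCard k univ, alt (fun l => ∑ k, n t k l • μ k)
        (l + bump (i + 1, a') S 1) := by
    intro t
    have := pow_sum (p := p) (h := d) (Z := fun l => ∑ k, n t k l • μ k) (hn t) μ
      (fun _ _ => rfl)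
    exact elem_of_pow_full this
  have hN2 : ∀ t (i : ZMod f) (a : Fin e) (k : ℕ), k ≤ d → ∀ l : HT (Emb f e) d,
      ∑ S ∈ powersetCard k univ, alt (fun l => ∑ k, n t k l • μ k) (l + bump (i, a) S 1) =
      ∑ S ∈ powersetCard k univ, alt (fun l => ∑ k, n t k l • μ k) (l + bump (i, 0) S 1) := by
    intro t i a k hk l
    have h1 := hN t (i - 1) 0 a k hk l
    have h2 := hN t (i - 1) 0 0 k hk l
    rw [sub_add_cancel] at h1 h2
    rw [← h1, ← h2]
  constructor
  · intro h t
    have hc : ∀ m : HT (Emb f e) d, alt (E t) m = alt (fun l => ∑ k, n t k l • μ k) m :=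
      fun m => alt_congr (by simpa using h t) m
    refine ⟨fun i k h1 h2 l _ => ?_, fun i a k h1 h2 l _ => ?_⟩
    · simp only [hc]
      exact (hN t i 0 0 k h2.le l).le
    · simp only [hc]
      exact (hN2 t i a k h2.le l).le
  · intro h t
    have hD : ∀ m : HT (Emb f e) d, alt (fun l => E t l - ∑ k, n t k l • μ k) m =
        alt (E t) m - alt (fun l => ∑ k, n t k l • μ k) m := fun m => alt_sub _ _ m
    have hz := vanish_reg hp (D := fun l => E t l - ∑ k, n t k l • μ k)
      (fun l hl => by simpa using hlow t l hl) ?_ ?_ ?_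
    · intro l hl
      have := hz l hl
      simp only [smul_eq_mul] at this
      linarith
    · intro i a a' l
      rw [hD, hD, (htw t).tw i a a' l]
      congr 1
      have := pow_sum (p := p) (h := d) (Z := fun l => ∑ k, n t k l • μ k) (hn t) μ
        (fun _ _ => rfl)
      exact (elem_of_pow_full this).tw i a a' l
    · refine ⟨fun i k h1 h2 l hr => ?_, fun i a k h1 h2 l hr => ?_⟩
      · simp only [hD, Finset.sum_sub_distrib]
        rw [hN t i 0 0 k h2.le l]
        exact sub_le_sub_right ((h t).1 i k h1 h2 l hr) _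
      · simp only [hD, Finset.sum_sub_distrib]
        rw [hN2 t i a k h2.le l]
        exact sub_le_sub_right ((h t).2 i a k h1 h2 l hr) _
    · intro b hb
      simp [hlift t b hb]

end

end Q148.BM
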