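import Mathlib
import Pool.Agent.Q148.BM.Red

/-!
# Pieri relations between the Hodge type and principal series inertial types
-/

namespace Q148.BM

open Finset

set_option linter.unusedSectionVars false

section

variable {J : Type*} [Fintype J] [DecidableEq J] {d : ℕ} {X : Type*} [CommGroup X]
  {A : Type*} [AddCommGroup A]

/-- The ratios of the characters `χ 0, …, χ (d-1)` are not in the subgroup `W`. -/
def Wild (W : Subgroup X) (χ : Fin d → X) : Prop := ∀ s s', s ≠ s' → χ s / χ s' ∉ W

/-- Multiplication of the characters at the places of `B` by `ω j`. -/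
def tw (ω : J → X) (j : J) (B : Finset (Fin d)) (χ : Fin d → X) : Fin d → X :=
  fun s => if s ∈ B then χ s * ω j else χ s

/-- The Pieri relations. -/
def Pieri (W : Subgroup X) (ω : J → X) (E : (Fin d → X) → HT J d → A) : Prop :=
  ∀ χ, Wild W χ → ∀ (j : J) (i : ℕ), 1 ≤ i → i ≤ d → ∀ l : HT J d,
    ∑ S ∈ powersetCard i univ, alt (E χ) (l + bump j S 1) =
      ∑ B ∈ powersetCard i univ, alt (E (tw ω j B χ)) l

/-- The one-sided Pieri relations of degree less than `d`, at the regular weights. -/
def PieriLe (W : Subgroup X) (ω : J → X) (E : (Fin d → X) → HT J d → ℤ) : Prop :=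
  ∀ χ, Wild W χ → ∀ (j : J) (i : ℕ), 1 ≤ i → i < d → ∀ l : HT J d, Reg l →
    ∑ S ∈ powersetCard i univ, alt (E χ) (l + bump j S 1) ≤
      ∑ B ∈ powersetCard i univ, alt (E (tw ω j B χ)) l

/-- The Pieri relation of degree `d` (twisting), on regular weights. -/
def TwistX (W : Subgroup X) (ω : J → X) (E : (Fin d → X) → HT J d → A) : Prop :=
  ∀ χ, Wild W χ → ∀ (j : J) (l : HT J d), Reg l →
    E χ (l + bump j univ 1) = E (fun s => χ s * ω j) l

/-- The smallest regular weight `(d-1, …, 1, 0)` at every embedding (Hodge type `0`). -/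
def eta : HT J d := fun _ s => (d : ℤ) - 1 - s.val

theorem wild_tw {W : Subgroup X} {ω : J → X} (hω : ∀ j, ω j ∈ W) {χ : Fin d → X}
    (h : Wild W χ) (j : J) (B : Finset (Fin d)) : Wild W (tw ω j B χ) := by
  intro s s' hs hmem
  have e : ∀ s, ∃ a ∈ W, tw ω j B χ s = χ s * a := by
    intro s
    unfold tw
    split_ifs
    · exact ⟨_, hω j, rfl⟩
    · exact ⟨1, W.one_mem, (mul_one _).symm⟩
  obtain ⟨a, ha, h1⟩ := e s
  obtain ⟨b, hb, h2⟩ := e s'
  rw [h1, h2] at hmem
  apply h s s' hs
  have h3 : χ s / χ s' = (χ s * a / (χ s' * b)) * (b / a) := by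
    rw [mul_div_mul_comm, mul_assoc, div_mul_div_cancel, div_self', mul_one]
  rw [h3]
  exact W.mul_mem hmem (W.div_mem hb ha)

theorem wild_mul {W : Subgroup X} {χ : Fin d → X} (h : Wild W χ) {a : X} :
    Wild W (fun s => χ s * a) := by
  intro s s' hs hmem
  apply h s s' hs
  have : χ s / χ s' = χ s * a / (χ s' * a) := (mul_div_mul_right_eq_div _ _ _).symm
  rw [this]; exact hmem

/-- twisting for the antisymmetric extension -/
def TwAlt (W : Subgroup X) (ω : J → X) (E : (Fin d → X) → HT J d → A) : Prop :=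
  ∀ χ, Wild W χ → ∀ (j : J) (l : HT J d),
    alt (E χ) (l + bump j univ 1) = alt (E (fun s => χ s * ω j)) l

theorem TwistX.alt {W : Subgroup X} {ω : J → X} {E : (Fin d → X) → HT J d → A}
    (h : TwistX W ω E) : TwAlt W ω E := by
  intro χ hχ j l
  have h0 : (cst (0 : J → ℤ) : HT J d) = 0 := rfl
  have := alt_add_cst (E χ) (E (fun s => χ s * ω j)) (Pi.single j 1) 0
    (fun l hl => by
      rw [← bump_univ, h0, add_zero]
      exact h χ hχ j l hl) l
  rw [← bump_univ, h0, add_zero] at this
  exact this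

theorem Pieri.twAlt {W : Subgroup X} {ω : J → X} {E : (Fin d → X) → HT J d → A} (hd : 0 < d)
    (h : Pieri W ω E) : TwAlt W ω E := by
  intro χ hχ j l
  have h1 := h χ hχ j d hd le_rfl l
  have hc : powersetCard d (univ : Finset (Fin d)) = {univ} := by
    have := powersetCard_self (univ : Finset (Fin d))
    rwa [card_univ, Fintype.card_fin] at this
  rw [hc, sum_singleton, sum_singleton] at h1
  rw [h1]
  have e : tw ω j univ χ = fun s => χ s * ω j := by
    funext s
    simp [Q148.BM.tw]
  rw [e]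

/-- all functions indexed by wild tuples together -/
def tog (W : Subgroup X) (D : (Fin d → X) → HT J d → A) : HT J d → ({χ : Fin d → X // Wild W χ} → A) :=
  fun l χ => D χ.1 l

theorem alt_tog (W : Subgroup X) (D : (Fin d → X) → HT J d → A) (l : HT J d)
    (χ : {χ : Fin d → X // Wild W χ}) : alt (tog W D) l χ = alt (D χ.1) l :=
  (alt_map (Pi.evalAddMonoidHom (fun _ : {χ : Fin d → X // Wild W χ} => A) χ) (tog W D) l).symm

theorem const_iff {W : Subgroup X} {ω : J → X} {D : (Fin d → X) → HT J d → A}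
    (hD : TwAlt W ω D) (j : J) (l : HT J d) :
    alt (tog W D) (l + bump j univ 1) = 0 ↔ alt (tog W D) l = 0 := by
  constructor
  · intro h
    funext χ
    rw [alt_tog]
    have hw : Wild W (fun s => χ.1 s * (ω j)⁻¹) := wild_mul χ.2
    have h1 := congrFun h ⟨_, hw⟩
    rw [alt_tog] at h1
    have h2 := hD _ hw j l
    rw [h1] at h2
    simpa using h2.symm
  · intro h
    funext χ
    rw [alt_tog, hD χ.1 χ.2 j l]
    have h1 := congrFun h ⟨_, wild_mul (a := ω j) χ.2⟩
    rw [alt_tog] at h1
    exact h1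

theorem const_all {W : Subgroup X} {ω : J → X} {D : (Fin d → X) → HT J d → A}
    (hD : TwAlt W ω D) (l : HT J d) (h : alt (tog W D) l = 0) (c : J → ℤ) :
    alt (tog W D) (l + cst c) = 0 := by
  have step : ∀ (j : J) (z : ℤ) (m : HT J d), alt (tog W D) m = 0 →
      alt (tog W D) (m + bump j univ z) = 0 := by
    intro j z m hm
    induction z using Int.induction_on with
    | zero =>
      have : (bump j univ 0 : HT J d) = 0 := by funext i s; simp [bump]
      rwa [this, add_zero]
    | succ z ih =>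
      have : (bump j univ ((z : ℤ) + 1) : HT J d) = bump j univ z + bump j univ 1 := by
        funext i s; simp only [bump, Pi.add_apply]; split_ifs <;> simp
      rw [this, ← add_assoc, const_iff hD]
      exact ih
    | pred z ih =>
      rw [← const_iff hD j]
      have : (m + bump j univ (-(z : ℤ) - 1) + bump j univ 1 : HT J d) =
          m + bump j univ (-(z : ℤ)) := by
        funext i s; simp only [bump, Pi.add_apply]; split_ifs <;> ring
      rw [this]
      exact ih
  have key : ∀ s : Finset J, alt (tog W D) (l + ∑ j ∈ s, bump j univ (c j)) = 0 := by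
    intro s
    induction s using Finset.induction_on with
    | empty => simpa using h
    | insert a s ha ih =>
      rw [sum_insert ha, add_comm (bump a univ (c a)), ← add_assoc]
      exact step a (c a) _ ih
  have e : (∑ j, bump j univ (c j) : HT J d) = cst c := by
    funext i s
    rw [Finset.sum_apply, Finset.sum_apply]
    simp [bump, cst]
  rw [← e]
  exact key univ

theorem eq_eta_add {l : HT J d} (hl : Reg l)
    (hs : ∀ j (s : ℕ) (h : s + 1 < d),
      l j ⟨s, (Nat.lt_succ_self s).trans h⟩ - l j ⟨s + 1, h⟩ ≤ 1) (hd : 0 < d) :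
    l = eta + cst (fun j => l j ⟨d - 1, by omega⟩) := by
  funext j
  have main : ∀ (k : ℕ) (s : ℕ) (h : s < d), s + k + 1 = d →
      l j ⟨s, h⟩ = (eta + cst (fun j => l j ⟨d - 1, by omega⟩) : HT J d) j ⟨s, h⟩ := by
    intro k
    induction k with
    | zero =>
      intro s h hk
      have : s = d - 1 := by omega
      subst this
      simp only [eta, cst, Pi.add_apply]
      push_cast [show 1 ≤ d by omega]
      ring
    | succ k ih =>
      intro s h hk
      have h1 : s + 1 < d := by omega
      have h2 := ih (s + 1) h1 (by omega)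
      have h3 := hs j s h1
      have h4 : l j ⟨s + 1, h1⟩ < l j ⟨s, h⟩ := hl j (Fin.lt_def.2 (by simp))
      simp only [eta, cst, Pi.add_apply] at h2 ⊢
      push_cast at h2 ⊢
      linarith
  funext s
  exact main (d - 1 - s.1) s.1 s.2 (by omega)

/-- **Reduction to Hodge type zero.** -/
theorem vanishP {W : Subgroup X} {ω : J → X} (hω : ∀ j, ω j ∈ W) (hd : 0 < d)
    {D : (Fin d → X) → HT J d → A} (hT : TwAlt W ω D) (hD : Pieri W ω D)
    (h0 : ∀ χ, Wild W χ → D χ eta = 0) : ∀ χ, Wild W χ → ∀ l, Reg l → D χ l = 0 := by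
  have hreg : Reg (eta : HT J d) := by
    intro j a b hab
    simp only [eta]
    have : (a.val : ℤ) < b.val := by exact_mod_cast Fin.lt_def.1 hab
    linarith
  have main : ∀ l, Reg l → tog W D l = 0 := by
    refine reduce_gen (tog W D) (fun _ => 1) (fun _ => 0) id (fun _ => 1) (by simp) (by simp)
      (by simp) (by simp) ?_ ?_
    · intro j i h1 h2 l S0 hS0 hreg' hL hR
      have hS0m : S0 ∈ powersetCard i (univ : Finset (Fin d)) :=
        mem_powersetCard.2 ⟨subset_univ _, hS0⟩
      have hl0 : alt (tog W D) l = 0 := by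
        have := hR S0 hS0m
        have e : (bump j S0 0 : HT J d) = 0 := by funext a s; simp [bump]
        simpa [e] using this
      funext χ
      have R := hD χ.1 χ.2 j i h1 h2.le l
      rw [Finset.sum_eq_single S0] at R
      · rw [alt_of_reg _ hreg', Finset.sum_eq_zero] at R
        · exact R
        · intro B _
          have := congrFun hl0 ⟨_, wild_tw hω χ.2 j B⟩
          rwa [alt_tog] at this
      · intro S hS hne
        have := congrFun (hL S hS hne) χ
        rwa [alt_tog] at this
      · intro h; exact absurd hS0m h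
    · intro l hl hs
      have e := eq_eta_add hl hs hd
      have hz : alt (tog W D) eta = 0 := by
        rw [alt_of_reg _ hreg]
        funext χ
        exact h0 χ.1 χ.2
      have := const_all hT eta hz (fun j => l j ⟨d - 1, by omega⟩)
      rw [← e, alt_of_reg _ hl] at this
      exact this
  intro χ hχ l hl
  exact congrFun (main l hl) ⟨χ, hχ⟩

/-- **One-sided reduction to Hodge type zero.** -/
theorem vanishP_le {W : Subgroup X} {ω : J → X} (hω : ∀ j, ω j ∈ W) (hd : 0 < d)
    {D : (Fin d → X) → HT J d → ℤ} (hpos : ∀ χ, Wild W χ → ∀ l, Reg l → 0 ≤ D χ l)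
    (hT : TwAlt W ω D) (hD : PieriLe W ω D)
    (h0 : ∀ χ, Wild W χ → D χ eta = 0) : ∀ χ, Wild W χ → ∀ l, Reg l → D χ l = 0 := by
  have hreg : Reg (eta : HT J d) := by
    intro j a b hab
    simp only [eta]
    have : (a.val : ℤ) < b.val := by exact_mod_cast Fin.lt_def.1 hab
    linarith
  have main : ∀ l, Reg l → tog W D l = 0 := by
    refine reduce_gen_reg (tog W D) (fun _ => 1) (fun _ => 0) id (fun _ => 1) (by simp) (by simp)
      (by simp) (by simp) ?_ ?_
    · intro j i h1 h2 l S0 hS0 hl hreg' hL hR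
      have hS0m : S0 ∈ powersetCard i (univ : Finset (Fin d)) :=
        mem_powersetCard.2 ⟨subset_univ _, hS0⟩
      have hl0 : alt (tog W D) l = 0 := by
        have := hR S0 hS0m
        have e : (bump j S0 0 : HT J d) = 0 := by funext a s; simp [bump]
        simpa [e] using this
      funext χ
      have R := hD χ.1 χ.2 j i h1 h2 l hl
      rw [Finset.sum_eq_single S0] at R
      · rw [alt_of_reg _ hreg', Finset.sum_eq_zero] at R
        · exact le_antisymm R (hpos χ.1 χ.2 _ hreg')
        · intro B _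
          have := congrFun hl0 ⟨_, wild_tw hω χ.2 j B⟩
          rwa [alt_tog] at this
      · intro S hS hne
        have := congrFun (hL S hS hne) χ
        rwa [alt_tog] at this
      · intro h; exact absurd hS0m h
    · intro l hl hs
      have e := eq_eta_add hl hs hd
      have hz : alt (tog W D) eta = 0 := by
        rw [alt_of_reg _ hreg]
        funext χ
        exact h0 χ.1 χ.2
      have := const_all hT eta hz (fun j => l j ⟨d - 1, by omega⟩)
      rw [← e, alt_of_reg _ hl] at this
      exact this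
  intro χ hχ l hl
  exact congrFun (main l hl) ⟨χ, hχ⟩

/-! ## Criteria -/

theorem alt_comb {V : Type*} [Fintype V] (n : V → HT J d → ℤ) (μ : V → A) (m : HT J d) :
    alt (fun l => ∑ k, n k l • μ k) m = ∑ k, alt (n k) m • μ k := by
  rw [alt_sum]
  simp only [alt_smul_right]

theorem pieri_comb {W : Subgroup X} {ω : J → X} {V : Type*} [Fintype V]
    {n : (Fin d → X) → V → HT J d → ℤ} (hn : ∀ k, Pieri W ω (fun χ => n χ k)) (μ : V → A) :
    Pieri W ω (fun χ l => ∑ k, n χ k l • μ k) := by
  intro χ hχ j i h1 h2 l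
  simp only [alt_comb]
  rw [Finset.sum_comm]
  conv_rhs => rw [Finset.sum_comm]
  refine Finset.sum_congr rfl fun k _ => ?_
  rw [← Finset.sum_smul, ← Finset.sum_smul, hn k χ hχ j i h1 h2 l]

theorem pieri_congr {W : Subgroup X} {ω : J → X} (hω : ∀ j, ω j ∈ W)
    {E E' : (Fin d → X) → HT J d → A}
    (h : ∀ χ, Wild W χ → ∀ l, Reg l → E χ l = E' χ l) (hE : Pieri W ω E') : Pieri W ω E := by
  intro χ hχ j i h1 h2 l
  have e : ∀ χ, Wild W χ → ∀ m, alt (E χ) m = alt (E' χ) m :=
    fun χ hχ m => alt_congr (h χ hχ) m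
  simp only [e χ hχ]
  rw [hE χ hχ j i h1 h2 l]
  exact Finset.sum_congr rfl fun B _ => (e _ (wild_tw hω hχ j B) l).symm

theorem pieri_sub {W : Subgroup X} {ω : J → X} {E E' : (Fin d → X) → HT J d → A}
    (hE : Pieri W ω E) (hE' : Pieri W ω E') : Pieri W ω (fun χ l => E χ l - E' χ l) := by
  intro χ hχ j i h1 h2 l
  simp only [alt_sub, Finset.sum_sub_distrib]
  rw [hE χ hχ j i h1 h2 l, hE' χ hχ j i h1 h2 l]

/-- **Criterion.** -/
theorem criterionP {W : Subgroup X} {ω : J → X} (hω : ∀ j, ω j ∈ W) (hd : 0 < d)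
    {V : Type*} [Fintype V] {n : (Fin d → X) → V → HT J d → ℤ}
    (hn : ∀ k, Pieri W ω (fun χ => n χ k)) (E : (Fin d → X) → HT J d → A) (μ : V → A) :
    (∀ χ, Wild W χ → ∀ l, Reg l → E χ l = ∑ k, n χ k l • μ k) ↔
      Pieri W ω E ∧ ∀ χ, Wild W χ → E χ eta = ∑ k, n χ k eta • μ k := by
  have hreg : Reg (eta : HT J d) := by
    intro j a b hab
    simp only [eta]
    have : (a.val : ℤ) < b.val := by exact_mod_cast Fin.lt_def.1 hab
    linarith
  constructor
  · intro h
    exact ⟨pieri_congr hω h (pieri_comb hn μ), fun χ hχ => h χ hχ eta hreg⟩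
  · rintro ⟨hE, h0⟩ χ hχ l hl
    have hD := pieri_sub hE (pieri_comb hn μ)
    have := vanishP hω hd (hD.twAlt hd) hD (fun χ hχ => sub_eq_zero.2 (h0 χ hχ)) χ hχ l hl
    exact sub_eq_zero.1 this

/-- **One-sided criterion.** -/
theorem criterionP_le {W : Subgroup X} {ω : J → X} (hω : ∀ j, ω j ∈ W) (hd : 0 < d)
    {V : Type*} [Fintype V] {n : (Fin d → X) → V → HT J d → ℤ}
    (hn : ∀ k, Pieri W ω (fun χ => n χ k)) (E : (Fin d → X) → HT J d → ℤ)
    (hT : TwistX W ω E) (μ : V → ℤ)
    (hlow : ∀ χ, Wild W χ → ∀ l, Reg l → ∑ k, n χ k l * μ k ≤ E χ l)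
    (h0 : ∀ χ, Wild W χ → E χ eta = ∑ k, n χ k eta * μ k) :
    (∀ χ, Wild W χ → ∀ l, Reg l → E χ l = ∑ k, n χ k l * μ k) ↔ PieriLe W ω E := by
  have hC := pieri_comb hn μ
  constructor
  · intro h χ hχ j i h1 h2 l _
    have := pieri_congr (E := E) hω (by simpa using h) hC
    exact (this χ hχ j i h1 h2.le l).le
  · intro hE χ hχ l hl
    have hz := vanishP_le hω hd (D := fun χ l => E χ l - ∑ k, n χ k l • μ k)
      (fun χ hχ l hl => by simpa using hlow χ hχ l hl) ?_ ?_ ?_ χ hχ l hl
    · simp only [smul_eq_mul] at hz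
      linarith
    · intro χ hχ j l
      simp only [alt_sub]
      rw [hT.alt χ hχ j l, (hC.twAlt hd) χ hχ j l]
    · intro χ hχ j i h1 h2 l hl
      simp only [alt_sub, Finset.sum_sub_distrib]
      rw [hC χ hχ j i h1 h2.le l]
      exact sub_le_sub_right (hE χ hχ j i h1 h2 l hl) _
    · intro χ hχ
      simp [h0 χ hχ]

end

end Q148.BM
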