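import Mathlib
import Pool.Agent.Q148.BM.Pieri

/-!
# Pieri relations and duality
-/

namespace Q148.BM

open Finset

set_option linter.unusedSectionVars false

section

variable {J : Type*} [Fintype J] [DecidableEq J] {d : ℕ} {X : Type*} [CommGroup X]
  {A : Type*} [AddCommGroup A]

theorem alt_neg2 (Z Z' : HT J d → A) (ι : A ≃+ A) (h : ∀ l, Reg l → Z (revNeg l) = ι (Z' l))
    (l : HT J d) :
    alt Z (-l) = (∏ _j : J, (Equiv.Perm.sign (Fin.revPerm : Equiv.Perm (Fin d)) : ℤ)) •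
      ι (alt Z' l) := by
  classical
  unfold alt
  rw [map_sum, Finset.smul_sum]
  symm
  refine Finset.sum_equiv (Equiv.mulRight
    (fun _ : J => (Fin.revPerm : Equiv.Perm (Fin d)))) (by simp) fun w _ => ?_
  have e1 : (fun j s => (-l) j
      ((Equiv.mulRight (fun _ : J => (Fin.revPerm : Equiv.Perm (Fin d)))) w j s)) =
      revNeg (fun j s => l j (w j s)) := by
    funext j s
    simp [revNeg]
  have e2 : ∀ m : HT J d, Reg (revNeg m) ↔ Reg m := by
    intro m
    unfold Reg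
    refine forall_congr' fun j => ?_
    constructor
    · intro hh a b hab
      have := hh (Fin.rev_lt_rev.2 hab)
      simp only [revNeg, Fin.rev_rev] at this
      linarith
    · intro hh a b hab
      have := hh (Fin.rev_lt_rev.2 hab)
      simp only [revNeg]
      linarith
  rw [e1, e2, map_zsmul, smul_smul]
  have e3 : (∏ j, (Equiv.Perm.sign
      ((Equiv.mulRight (fun _ : J => (Fin.revPerm : Equiv.Perm (Fin d)))) w j) : ℤ)) =
      (∏ _j : J, (Equiv.Perm.sign (Fin.revPerm : Equiv.Perm (Fin d)) : ℤ)) *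
        ∏ j, (Equiv.Perm.sign (w j) : ℤ) := by
    rw [← Finset.prod_mul_distrib]
    refine Finset.prod_congr rfl fun j _ => ?_
    simp [mul_comm]
  rw [e3]
  congr 1
  split_ifs with hr
  · exact (h _ hr).symm
  · simp

theorem wild_inv {W : Subgroup X} {χ : Fin d → X} (h : Wild W χ) : Wild W (fun s => (χ s)⁻¹) := by
  intro s s' hs hmem
  apply h s s' hs
  have e : χ s / χ s' = ((χ s)⁻¹ / (χ s')⁻¹)⁻¹ := by
    rw [inv_div_inv, inv_div]
  rw [e]
  exact W.inv_mem hmem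

theorem sum_compl_card (i : ℕ) (hi : i ≤ d) (F : Finset (Fin d) → A) :
    ∑ S ∈ powersetCard i univ, F S = ∑ S ∈ powersetCard (d - i) univ, F Sᶜ := by
  refine Finset.sum_nbij' (fun S => Sᶜ) (fun S => Sᶜ) ?_ ?_ ?_ ?_ ?_
  · intro S hS
    rw [mem_powersetCard] at hS ⊢
    exact ⟨subset_univ _, by rw [card_compl, hS.2, Fintype.card_fin]⟩
  · intro S hS
    rw [mem_powersetCard] at hS ⊢
    refine ⟨subset_univ _, ?_⟩
    rw [card_compl, hS.2, Fintype.card_fin]; omega
  · intro S _; simp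
  · intro S _; simp
  · intro S _; simp

/-- The Pieri relations of degree at most `h`. -/
def PieriUpTo (h : ℕ) (W : Subgroup X) (ω : J → X) (E : (Fin d → X) → HT J d → A) : Prop :=
  ∀ χ, Wild W χ → ∀ (j : J) (i : ℕ), 1 ≤ i → i ≤ h → ∀ l : HT J d,
    ∑ S ∈ powersetCard i univ, alt (E χ) (l + bump j S 1) =
      ∑ B ∈ powersetCard i univ, alt (E (tw ω j B χ)) l

/-- With twists and duality the relations of degree at most `d / 2` are enough. -/
theorem pieri_of_half {W : Subgroup X} {ω : J → X} {R : Type*}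
    {E : R → (Fin d → X) → HT J d → A} (hT : ∀ r, TwAlt W ω (E r)) (dR : R → R) (ι : A ≃+ A)
    (hdual : ∀ r χ, Wild W χ → ∀ l, Reg l →
      E r χ (revNeg l) = ι (E (dR r) (fun s => (χ s)⁻¹) l))
    (hω : ∀ j, ω j ∈ W)
    (h : ∀ r, PieriUpTo (d / 2) W ω (E r)) : ∀ r, Pieri W ω (E r) := by
  intro r χ hχ j i h1 h2 l
  by_cases hi : i ≤ d / 2
  · exact h r χ hχ j i h1 hi l
  by_cases hd : i = d
  · subst hd
    have hc : powersetCard i (univ : Finset (Fin i)) = {univ} := by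
      have := powersetCard_self (univ : Finset (Fin i))
      rwa [card_univ, Fintype.card_fin] at this
    rw [hc, sum_singleton, sum_singleton, hT r χ hχ j l]
    have e : tw ω j univ χ = fun s => χ s * ω j := by
      funext s
      simp [tw]
    rw [e]
  have hw : Wild W (fun s => χ s * ω j) := wild_mul hχ
  have hw' : Wild W (fun s => (χ s * ω j)⁻¹) := wild_inv hw
  rw [sum_compl_card i h2, sum_compl_card i h2 (fun B => alt (E r (tw ω j B χ)) l)]
  have e1 : ∀ S : Finset (Fin d), alt (E r χ) (l + bump j Sᶜ 1) =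
      (∏ _j : J, (Equiv.Perm.sign (Fin.revPerm : Equiv.Perm (Fin d)) : ℤ)) •
        ι (alt (E (dR r) (fun s => (χ s * ω j)⁻¹)) (-l + bump j S 1)) := by
    intro S
    rw [← alt_neg2 (E r (fun s => χ s * ω j)) _ ι (hdual r _ hw), bump_compl,
      add_comm (bump j univ 1), ← add_assoc, hT r χ hχ j, bump_neg]
    congr 1
    abel
  have e2 : ∀ B : Finset (Fin d), alt (E r (tw ω j Bᶜ χ)) l =
      (∏ _j : J, (Equiv.Perm.sign (Fin.revPerm : Equiv.Perm (Fin d)) : ℤ)) •
        ι (alt (E (dR r) (tw ω j B (fun s => (χ s * ω j)⁻¹))) (-l)) := by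
    intro B
    have e3 : tw ω j B (fun s => (χ s * ω j)⁻¹) = fun s => (tw ω j Bᶜ χ s)⁻¹ := by
      funext s
      unfold tw
      by_cases hs : s ∈ B
      · simp [hs]
      · simp [hs, mul_comm]
    rw [e3, ← alt_neg2 (E r (tw ω j Bᶜ χ)) _ ι (hdual r _ (wild_tw hω hχ j Bᶜ)), neg_neg]
  simp only [e1, e2, ← Finset.smul_sum, ← map_sum]
  congr 2
  exact h (dR r) _ hw' j (d - i) (by omega) (by omega) (-l)

theorem Pieri.upTo {W : Subgroup X} {ω : J → X} {E : (Fin d → X) → HT J d → A}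
    (hE : Pieri W ω E) {h : ℕ} (hh : h ≤ d) : PieriUpTo h W ω E :=
  fun χ hχ j i h1 h2 l => hE χ hχ j i h1 (h2.trans hh) l

/-- **Criterion for families with duality.** -/
theorem criterionP_dual {W : Subgroup X} {ω : J → X} (hω : ∀ j, ω j ∈ W) (hd : 0 < d)
    {V : Type*} [Fintype V] {n : (Fin d → X) → V → HT J d → ℤ}
    (hn : ∀ k, Pieri W ω (fun χ => n χ k)) {R : Type*}
    (E : R → (Fin d → X) → HT J d → A) (hT : ∀ r, TwistX W ω (E r)) (dR : R → R) (ι : A ≃+ A)
    (hdual : ∀ r χ, Wild W χ → ∀ l, Reg l →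
      E r χ (revNeg l) = ι (E (dR r) (fun s => (χ s)⁻¹) l))
    (P : R → (V → A) → Prop) :
    (∀ r, ∃ μ, P r μ ∧ ∀ χ, Wild W χ → ∀ l, Reg l → E r χ l = ∑ k, n χ k l • μ k) ↔
      (∀ r, PieriUpTo (d / 2) W ω (E r)) ∧
      ∀ r, ∃ μ, P r μ ∧ ∀ χ, Wild W χ → E r χ eta = ∑ k, n χ k eta • μ k := by
  constructor
  · intro h
    refine ⟨fun r => ?_, fun r => ?_⟩
    · obtain ⟨μ, _, hμ⟩ := h r
      exact ((criterionP hω hd hn (E r) μ).1 hμ).1.upTo (Nat.div_le_self d 2)
    · obtain ⟨μ, h1, hμ⟩ := h r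
      exact ⟨μ, h1, ((criterionP hω hd hn (E r) μ).1 hμ).2⟩
  · rintro ⟨h1, h2⟩ r
    obtain ⟨μ, h3, hμ⟩ := h2 r
    refine ⟨μ, h3, (criterionP hω hd hn (E r) μ).2 ⟨?_, hμ⟩⟩
    exact pieri_of_half (fun r => (hT r).alt) dR ι hdual hω h1 r

end

end Q148.BM
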