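import Mathlib
import Pool.Agent.Q148.BM.PieriDual

/-!
# Tensor relations: families of types closed under tensoring with Brauer lifts
-/

namespace Q148.BM

open Finset

set_option linter.unusedSectionVars false

section

variable {J : Type*} [Fintype J] [DecidableEq J] {d : ℕ} {T : Type*}
  {A : Type*} [AddCommGroup A]

/-- The tensor relations of degree at most `h`. -/
def TensRel (h : ℕ) (c : J → ℕ → T → (T →₀ ℤ)) (E : T → HT J d → A) : Prop :=
  ∀ (t : T) (j : J) (i : ℕ), 1 ≤ i → i ≤ h → ∀ l : HT J d,
    ∑ S ∈ powersetCard i univ, alt (E t) (l + bump j S 1) =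
      (c j i t).sum fun t' m => m • alt (E t') l

/-- Twisting, on regular weights. -/
def TwistT (τ : J → T ≃ T) (E : T → HT J d → A) : Prop :=
  ∀ (t : T) (j : J) (l : HT J d), Reg l → E t (l + bump j univ 1) = E (τ j t) l

/-- twisting for the antisymmetric extension -/
def TwistTA (τ : J → T ≃ T) (E : T → HT J d → A) : Prop :=
  ∀ (t : T) (j : J) (l : HT J d), alt (E t) (l + bump j univ 1) = alt (E (τ j t)) l

theorem TwistT.alt {τ : J → T ≃ T} {E : T → HT J d → A} (h : TwistT τ E) : TwistTA τ E := by
  intro t j l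
  have h0 : (cst (0 : J → ℤ) : HT J d) = 0 := rfl
  have := alt_add_cst (E t) (E (τ j t)) (Pi.single j 1) 0
    (fun l hl => by
      rw [← bump_univ, h0, add_zero]
      exact h t j l hl) l
  rw [← bump_univ, h0, add_zero] at this
  exact this

theorem TensRel.twist {τ : J → T ≃ T} {c : J → ℕ → T → (T →₀ ℤ)} {E : T → HT J d → A}
    (hd : 0 < d) (hc : ∀ j t, c j d t = Finsupp.single (τ j t) 1) (h : TensRel d c E) :
    TwistTA τ E := by
  intro t j l
  have h1 := h t j d hd le_rfl l
  have hp : powersetCard d (univ : Finset (Fin d)) = {univ} := by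
    have := powersetCard_self (univ : Finset (Fin d))
    rwa [card_univ, Fintype.card_fin] at this
  rw [hp, sum_singleton, hc, Finsupp.sum_single_index (by simp), one_smul] at h1
  exact h1

/-- all functions together -/
def togT (D : T → HT J d → A) : HT J d → (T → A) := fun l t => D t l

theorem alt_togT (D : T → HT J d → A) (l : HT J d) (t : T) :
    alt (togT D) l t = alt (D t) l :=
  (alt_map (Pi.evalAddMonoidHom (fun _ : T => A) t) (togT D) l).symm

theorem const_iffT {τ : J → T ≃ T} {D : T → HT J d → A} (hD : TwistTA τ D) (j : J) (l : HT J d) :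
    alt (togT D) (l + bump j univ 1) = 0 ↔ alt (togT D) l = 0 := by
  constructor
  · intro h
    funext t
    rw [alt_togT]
    have h1 := congrFun h ((τ j).symm t)
    rw [alt_togT] at h1
    have h2 := hD ((τ j).symm t) j l
    rw [h1, Equiv.apply_symm_apply] at h2
    exact h2.symm
  · intro h
    funext t
    rw [alt_togT, hD t j l]
    have h1 := congrFun h (τ j t)
    rw [alt_togT] at h1
    exact h1

theorem const_allT {τ : J → T ≃ T} {D : T → HT J d → A} (hD : TwistTA τ D) (l : HT J d)
    (h : alt (togT D) l = 0) (c : J → ℤ) : alt (togT D) (l + cst c) = 0 := by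
  have step : ∀ (j : J) (z : ℤ) (m : HT J d), alt (togT D) m = 0 →
      alt (togT D) (m + bump j univ z) = 0 := by
    intro j z m hm
    induction z using Int.induction_on with
    | zero =>
      have : (bump j univ 0 : HT J d) = 0 := by funext i s; simp [bump]
      rwa [this, add_zero]
    | succ z ih =>
      have : (bump j univ ((z : ℤ) + 1) : HT J d) = bump j univ z + bump j univ 1 := by
        funext i s; simp only [bump, Pi.add_apply]; split_ifs <;> simp
      rw [this, ← add_assoc, const_iffT hD]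
      exact ih
    | pred z ih =>
      rw [← const_iffT hD j]
      have : (m + bump j univ (-(z : ℤ) - 1) + bump j univ 1 : HT J d) =
          m + bump j univ (-(z : ℤ)) := by
        funext i s; simp only [bump, Pi.add_apply]; split_ifs <;> ring
      rw [this]
      exact ih
  have key : ∀ s : Finset J, alt (togT D) (l + ∑ j ∈ s, bump j univ (c j)) = 0 := by
    intro s
    induction s using Finset.induction_on with
    | empty => simpa using h
    | insert a s ha ih =>
      rw [sum_insert ha, add_comm (bump a univ (c a)), ← add_assoc]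
      exact step a (c a) _ ih
  have e : (∑ j, bump j univ (c j) : HT J d) = cst c := by
    funext i s
    rw [Finset.sum_apply, Finset.sum_apply]
    simp [bump, cst]
  rw [← e]
  exact key univ

theorem reg_eta : Reg (eta : HT J d) := by
  intro j a b hab
  simp only [eta]
  have : (a.val : ℤ) < b.val := by exact_mod_cast Fin.lt_def.1 hab
  linarith

/-- **Reduction to Hodge type zero.** -/
theorem vanishT {τ : J → T ≃ T} {c : J → ℕ → T → (T →₀ ℤ)} (hd : 0 < d)
    {D : T → HT J d → A} (hT : TwistTA τ D) (hD : TensRel d c D)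
    (h0 : ∀ t, D t eta = 0) : ∀ t l, Reg l → D t l = 0 := by
  have main : ∀ l, Reg l → togT D l = 0 := by
    refine reduce_gen (togT D) (fun _ => 1) (fun _ => 0) id (fun _ => 1) (by simp) (by simp)
      (by simp) (by simp) ?_ ?_
    · intro j i h1 h2 l S0 hS0 hreg' hL hR
      have hS0m : S0 ∈ powersetCard i (univ : Finset (Fin d)) :=
        mem_powersetCard.2 ⟨subset_univ _, hS0⟩
      have hl0 : alt (togT D) l = 0 := by
        have := hR S0 hS0m
        have e : (bump j S0 0 : HT J d) = 0 := by funext a s; simp [bump]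
        simpa [e] using this
      funext t
      have R := hD t j i h1 h2.le l
      rw [Finset.sum_eq_single S0] at R
      · rw [alt_of_reg _ hreg'] at R
        change D t (l + bump j S0 1) = 0
        rw [R]
        refine Finset.sum_eq_zero fun t' _ => ?_
        have := congrFun hl0 t'
        rw [alt_togT] at this
        change (c j i t) t' • alt (D t') l = 0
        rw [this]
        exact smul_zero _
      · intro S hS hne
        have := congrFun (hL S hS hne) t
        rwa [alt_togT] at this
      · intro h; exact absurd hS0m h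
    · intro l hl hs
      have e := eq_eta_add hl hs hd
      have hz : alt (togT D) eta = 0 := by
        rw [alt_of_reg _ reg_eta]
        funext t
        exact h0 t
      have := const_allT hT eta hz (fun j => l j ⟨d - 1, by omega⟩)
      rw [← e, alt_of_reg _ hl] at this
      exact this
  intro t l hl
  exact congrFun (main l hl) t

theorem tens_comb {c : J → ℕ → T → (T →₀ ℤ)} {V : Type*} [Fintype V]
    {n : T → V → HT J d → ℤ} (hn : ∀ k, TensRel d c (fun t => n t k)) (μ : V → A) :
    TensRel d c (fun t l => ∑ k, n t k l • μ k) := by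
  intro t j i h1 h2 l
  simp only [alt_comb]
  rw [Finset.sum_comm]
  have : ∀ k, ∑ S ∈ powersetCard i univ, alt (n t k) (l + bump j S 1) • μ k =
      ((c j i t).sum fun t' m => m • alt (n t' k) l) • μ k := by
    intro k
    rw [← Finset.sum_smul]
    congr 1
    exact hn k t j i h1 h2 l
  simp only [this]
  simp only [Finsupp.sum, Finset.sum_smul, Finset.smul_sum, smul_smul, smul_eq_mul]
  rw [Finset.sum_comm]

theorem tens_congr {c : J → ℕ → T → (T →₀ ℤ)} {h : ℕ} {E E' : T → HT J d → A}
    (he : ∀ t l, Reg l → E t l = E' t l) (hE : TensRel h c E') : TensRel h c E := by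
  intro t j i h1 h2 l
  have e : ∀ t m, alt (E t) m = alt (E' t) m := fun t m => alt_congr (he t) m
  simp only [e]
  exact hE t j i h1 h2 l

theorem tens_sub {c : J → ℕ → T → (T →₀ ℤ)} {h : ℕ} {E E' : T → HT J d → A}
    (hE : TensRel h c E) (hE' : TensRel h c E') : TensRel h c (fun t l => E t l - E' t l) := by
  intro t j i h1 h2 l
  simp only [alt_sub, Finset.sum_sub_distrib, smul_sub]
  rw [hE t j i h1 h2 l, hE' t j i h1 h2 l]
  simp only [Finsupp.sum, Finset.sum_sub_distrib]

/-- **Criterion.** -/
theorem criterionT {τ : J → T ≃ T} {c : J → ℕ → T → (T →₀ ℤ)} (hd : 0 < d)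
    (hc : ∀ j t, c j d t = Finsupp.single (τ j t) 1) {V : Type*} [Fintype V]
    {n : T → V → HT J d → ℤ} (hn : ∀ k, TensRel d c (fun t => n t k))
    (E : T → HT J d → A) (μ : V → A) :
    (∀ t l, Reg l → E t l = ∑ k, n t k l • μ k) ↔
      TensRel d c E ∧ ∀ t, E t eta = ∑ k, n t k eta • μ k := by
  constructor
  · intro h
    exact ⟨tens_congr h (tens_comb hn μ), fun t => h t eta reg_eta⟩
  · rintro ⟨hE, h0⟩ t l hl
    have hD := tens_sub hE (tens_comb hn μ)
    have := vanishT hd (hD.twist hd hc) hD (fun t => sub_eq_zero.2 (h0 t)) t l hl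
    exact sub_eq_zero.1 this

theorem TensRel.mono {c : J → ℕ → T → (T →₀ ℤ)} {h h' : ℕ} {E : T → HT J d → A}
    (hE : TensRel h c E) (hh : h' ≤ h) : TensRel h' c E :=
  fun t j i h1 h2 l => hE t j i h1 (h2.trans hh) l

/-- With twists and duality the relations of degree at most `d / 2` are enough. -/
theorem tens_of_half {τ : J → T ≃ T} {c : J → ℕ → T → (T →₀ ℤ)}
    (hc : ∀ j t, c j d t = Finsupp.single (τ j t) 1) {R : Type*}
    {E : R → T → HT J d → A} (hT : ∀ r, TwistTA τ (E r)) (dR : R → R) (δ : T → T) (ι : A ≃+ A)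
    (hdual : ∀ r t l, Reg l → E r t (revNeg l) = ι (E (dR r) (δ t) l))
    (hcd : ∀ j i t, d / 2 < i → i < d → (c j i t).mapDomain δ = c j (d - i) (δ (τ j t)))
    (h : ∀ r, TensRel (d / 2) c (E r)) : ∀ r, TensRel d c (E r) := by
  intro r t j i h1 h2 l
  by_cases hi : i ≤ d / 2
  · exact h r t j i h1 hi l
  by_cases hd : i = d
  · subst hd
    have hp : powersetCard i (univ : Finset (Fin i)) = {univ} := by
      have := powersetCard_self (univ : Finset (Fin i))
      rwa [card_univ, Fintype.card_fin] at this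
    rw [hp, sum_singleton, hT r t j l, hc, Finsupp.sum_single_index (by simp), one_smul]
  rw [sum_compl_card i h2]
  have e1 : ∀ S : Finset (Fin d), alt (E r t) (l + bump j Sᶜ 1) =
      (∏ _j : J, (Equiv.Perm.sign (Fin.revPerm : Equiv.Perm (Fin d)) : ℤ)) •
        ι (alt (E (dR r) (δ (τ j t))) (-l + bump j S 1)) := by
    intro S
    rw [← alt_neg2 (E r (τ j t)) _ ι (hdual r _), bump_compl,
      add_comm (bump j univ 1), ← add_assoc, hT r t j, bump_neg]
    congr 1
    abel
  have e2 : ∀ t', alt (E r t') l =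
      (∏ _j : J, (Equiv.Perm.sign (Fin.revPerm : Equiv.Perm (Fin d)) : ℤ)) •
        ι (alt (E (dR r) (δ t')) (-l)) := by
    intro t'
    rw [← alt_neg2 (E r t') _ ι (hdual r _), neg_neg]
  have e3 : ((c j i t).sum fun t' m => m • alt (E r t') l) =
      (∏ _j : J, (Equiv.Perm.sign (Fin.revPerm : Equiv.Perm (Fin d)) : ℤ)) •
        ι ((c j (d - i) (δ (τ j t))).sum fun t' m => m • alt (E (dR r) t') (-l)) := by
    rw [← hcd j i t (by omega) (by omega), Finsupp.sum_mapDomain_index (by simp)
      (by intro b x y; exact add_smul x y _)]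
    simp only [e2, Finsupp.sum]
    rw [map_sum, Finset.smul_sum]
    refine Finset.sum_congr rfl fun t' _ => ?_
    rw [map_zsmul, smul_comm]
  rw [e3]
  simp only [e1, ← Finset.smul_sum, ← map_sum]
  congr 2
  exact h (dR r) _ j (d - i) (by omega) (by omega) (-l)

/-- **Criterion for families with duality.** -/
theorem criterionT_dual {τ : J → T ≃ T} {c : J → ℕ → T → (T →₀ ℤ)} (hd : 0 < d)
    (hc : ∀ j t, c j d t = Finsupp.single (τ j t) 1) {V : Type*} [Fintype V]
    {n : T → V → HT J d → ℤ} (hn : ∀ k, TensRel d c (fun t => n t k)) {R : Type*}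
    (E : R → T → HT J d → A) (hT : ∀ r, TwistT τ (E r)) (dR : R → R) (δ : T → T) (ι : A ≃+ A)
    (hdual : ∀ r t l, Reg l → E r t (revNeg l) = ι (E (dR r) (δ t) l))
    (hcd : ∀ j i t, d / 2 < i → i < d → (c j i t).mapDomain δ = c j (d - i) (δ (τ j t)))
    (P : R → (V → A) → Prop) :
    (∀ r, ∃ μ, P r μ ∧ ∀ t l, Reg l → E r t l = ∑ k, n t k l • μ k) ↔
      (∀ r, TensRel (d / 2) c (E r)) ∧
      ∀ r, ∃ μ, P r μ ∧ ∀ t, E r t eta = ∑ k, n t k eta • μ k := by
  constructor
  · intro h
    refine ⟨fun r => ?_, fun r => ?_⟩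
    · obtain ⟨μ, _, hμ⟩ := h r
      exact ((criterionT hd hc hn (E r) μ).1 hμ).1.mono (Nat.div_le_self d 2)
    · obtain ⟨μ, h1, hμ⟩ := h r
      exact ⟨μ, h1, ((criterionT hd hc hn (E r) μ).1 hμ).2⟩
  · rintro ⟨h1, h2⟩ r
    obtain ⟨μ, h3, hμ⟩ := h2 r
    refine ⟨μ, h3, (criterionT hd hc hn (E r) μ).2 ⟨?_, hμ⟩⟩
    exact tens_of_half hc (fun r => (hT r).alt) dR δ ι hdual hcd h1 r

/-! ## Hodge type zero without the unknown multiplicities -/

theorem exists_dual {V : Type*} [Fintype V] [DecidableEq V] {n : T → V → ℤ}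
    (hspan : Submodule.span ℤ (Set.range n) = ⊤) (k : V) :
    ∃ m : T →₀ ℤ, ∀ k', (m.sum fun t x => x * n t k') = if k = k' then 1 else 0 := by
  have h : (Pi.single k 1 : V → ℤ) ∈ Submodule.span ℤ (Set.range n) := by
    rw [hspan]; trivial
  rw [Finsupp.mem_span_range_iff_exists_finsupp] at h
  obtain ⟨m, hm⟩ := h
  refine ⟨m, fun k' => ?_⟩
  have h1 := congrFun hm k'
  rw [Pi.single_apply] at h1
  simp only [Finsupp.sum, Finset.sum_apply, Pi.smul_apply, smul_eq_mul] at h1 ⊢
  rw [h1]
  simp only [eq_comm]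

theorem factor_key {V : Type*} [Fintype V] [DecidableEq V] {n : T → V → ℤ} (Z : T → A)
    (M : V → (T →₀ ℤ))
    (hM : ∀ k k', ((M k).sum fun t x => x * n t k') = if k = k' then 1 else 0) (t : T) :
    ∃ m : T →₀ ℤ, (∀ k, (m.sum fun t x => x * n t k) = 0) ∧
      (m.sum fun t x => x • Z t) = Z t - ∑ k, n t k • (M k).sum fun t x => x • Z t := by
  have hlin : ∀ {B : Type _} [AddCommGroup B] (F : T → B) (m : T →₀ ℤ),
      (m.sum fun t x => x • F t) = Finsupp.linearCombination ℤ F m := by
    intro B _ F m
    rw [Finsupp.linearCombination_apply]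
  refine ⟨Finsupp.single t 1 - ∑ k, n t k • M k, fun k' => ?_, ?_⟩
  · have h1 : ∀ m : T →₀ ℤ, (m.sum fun t x => x * n t k') =
        Finsupp.linearCombination ℤ (fun t => n t k') m := by
      intro m
      rw [Finsupp.linearCombination_apply]
      rfl
    rw [h1, map_sub, map_sum]
    simp only [map_smul]
    simp only [← h1, hM]
    rw [Finsupp.sum_single_index (by simp)]
    simp
  · rw [hlin, map_sub, map_sum]
    simp only [map_smul]
    simp only [← hlin]
    rw [Finsupp.sum_single_index (by simp), one_smul]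

/-- Hodge type zero, cycles. -/
theorem factor_cycles {V : Type*} [Fintype V] {n : T → V → ℤ}
    (hspan : Submodule.span ℤ (Set.range n) = ⊤) (Z : T → A) :
    (∃ μ : V → A, ∀ t, Z t = ∑ k, n t k • μ k) ↔
      ∀ m : T →₀ ℤ, (∀ k, (m.sum fun t x => x * n t k) = 0) → (m.sum fun t x => x • Z t) = 0 := by
  classical
  constructor
  · rintro ⟨μ, hμ⟩ m hm
    have : (m.sum fun t x => x • Z t) = ∑ k, (m.sum fun t x => x * n t k) • μ k := by
      simp only [Finsupp.sum, Finset.sum_smul, mul_smul]
      rw [Finset.sum_comm]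
      refine Finset.sum_congr rfl fun t _ => ?_
      rw [hμ t, Finset.smul_sum]
    rw [this]
    simp [hm]
  · intro h
    choose M hM using exists_dual hspan
    refine ⟨fun k => (M k).sum fun t x => x • Z t, fun t => ?_⟩
    obtain ⟨m, h1, h2⟩ := factor_key Z M hM t
    have := h m h1
    rw [h2] at this
    exact sub_eq_zero.1 this

/-- Hodge type zero, multiplicities. -/
theorem factor_num {V : Type*} [Fintype V] {n : T → V → ℤ}
    (hspan : Submodule.span ℤ (Set.range n) = ⊤) (e : T → ℤ) :
    (∃ μ : V → ℤ, (∀ k, 0 ≤ μ k) ∧ ∀ t, e t = ∑ k, n t k * μ k) ↔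
      ∀ m : T →₀ ℤ, (∀ k, 0 ≤ m.sum fun t x => x * n t k) → 0 ≤ m.sum fun t x => x * e t := by
  classical
  constructor
  · rintro ⟨μ, hpos, hμ⟩ m hm
    have : (m.sum fun t x => x * e t) = ∑ k, (m.sum fun t x => x * n t k) * μ k := by
      simp only [Finsupp.sum, Finset.sum_mul, mul_assoc]
      rw [Finset.sum_comm]
      refine Finset.sum_congr rfl fun t _ => ?_
      rw [hμ t, Finset.mul_sum]
    rw [this]
    exact Finset.sum_nonneg fun k _ => mul_nonneg (hm k) (hpos k)
  · intro h
    have hz : ∀ m : T →₀ ℤ, (∀ k, (m.sum fun t x => x * n t k) = 0) →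
        (m.sum fun t x => x • e t) = 0 := by
      intro m hm
      have h1 := h m (fun k => (hm k).ge)
      have h2 := h (-m) (fun k => by
        rw [Finsupp.sum_neg_index (by simp)]
        have := hm k
        simp only [Finsupp.sum, neg_mul, Finset.sum_neg_distrib] at this ⊢
        rw [this]; simp)
      rw [Finsupp.sum_neg_index (by simp)] at h2
      simp only [Finsupp.sum, neg_mul, Finset.sum_neg_distrib, smul_eq_mul] at h1 h2 ⊢
      linarith
    obtain ⟨μ, hμ⟩ := (factor_cycles hspan e).2 hz
    choose M hM using exists_dual hspan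
    refine ⟨μ, fun k => ?_, by simpa using hμ⟩
    have h1 := h (M k) (fun k' => by rw [hM]; split_ifs <;> simp)
    have h2 : ((M k).sum fun t x => x * e t) = ∑ k', ((M k).sum fun t x => x * n t k') * μ k' := by
      simp only [Finsupp.sum, Finset.sum_mul, mul_assoc]
      rw [Finset.sum_comm]
      refine Finset.sum_congr rfl fun t _ => ?_
      rw [hμ t, Finset.mul_sum]
      simp
    rw [h2] at h1
    simpa [hM] using h1

end

end Q148.BM
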