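import Mathlib
import Pool.Agent.Q148.BM.Tens

/-!
# Tensor relations at regular weights
-/

namespace Q148.BM

open Finset

set_option linter.unusedSectionVars false

section

variable {J : Type*} [Fintype J] [DecidableEq J] {d : ℕ} {T : Type*}
  {A : Type*} [AddCommGroup A]

/-- The tensor relations of degree less than `d`, at the regular weights. -/
def TensReg (c : J → ℕ → T → (T →₀ ℤ)) (E : T → HT J d → A) : Prop :=
  ∀ (t : T) (j : J) (i : ℕ), 1 ≤ i → i < d → ∀ l : HT J d, Reg l →
    ∑ S ∈ powersetCard i univ, alt (E t) (l + bump j S 1) =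
      (c j i t).sum fun t' m => m • alt (E t') l

/-- **Reduction to Hodge type zero.** -/
theorem vanishTR {τ : J → T ≃ T} {c : J → ℕ → T → (T →₀ ℤ)} (hd : 0 < d)
    {D : T → HT J d → A} (hT : TwistTA τ D) (hD : TensReg c D)
    (h0 : ∀ t, D t eta = 0) : ∀ t l, Reg l → D t l = 0 := by
  have main : ∀ l, Reg l → togT D l = 0 := by
    refine reduce_gen_reg (togT D) (fun _ => 1) (fun _ => 0) id (fun _ => 1) (by simp) (by simp)
      (by simp) (by simp) ?_ ?_
    · intro j i h1 h2 l S0 hS0 hl hreg' hL hR
      have hS0m : S0 ∈ powersetCard i (univ : Finset (Fin d)) :=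
        mem_powersetCard.2 ⟨subset_univ _, hS0⟩
      have hl0 : alt (togT D) l = 0 := by
        have := hR S0 hS0m
        have e : (bump j S0 0 : HT J d) = 0 := by funext a s; simp [bump]
        simpa [e] using this
      funext t
      have R := hD t j i h1 h2 l hl
      rw [Finset.sum_eq_single S0] at R
      · rw [alt_of_reg _ hreg'] at R
        change D t (l + bump j S0 1) = 0
        rw [R]
        refine Finset.sum_eq_zero fun t' _ => ?_
        have := congrFun hl0 t'
        rw [alt_togT] at this
        change (c j i t) t' • alt (D t') l = 0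
        rw [this]
        exact smul_zero _
      · intro S hS hne
        have := congrFun (hL S hS hne) t
        rwa [alt_togT] at this
      · intro h; exact absurd hS0m h
    · intro l hl hs
      have e := eq_eta_add hl hs hd
      have hz : alt (togT D) eta = 0 := by
        rw [alt_of_reg _ reg_eta]
        funext t
        exact h0 t
      have := const_allT hT eta hz (fun j => l j ⟨d - 1, by omega⟩)
      rw [← e, alt_of_reg _ hl] at this
      exact this
  intro t l hl
  exact congrFun (main l hl) t

theorem TensReg.sub {c : J → ℕ → T → (T →₀ ℤ)} {E E' : T → HT J d → A}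
    (hE : TensReg c E) (hE' : TensReg c E') : TensReg c (fun t l => E t l - E' t l) := by
  intro t j i h1 h2 l hl
  simp only [alt_sub, Finset.sum_sub_distrib, smul_sub]
  rw [hE t j i h1 h2 l hl, hE' t j i h1 h2 l hl]
  simp only [Finsupp.sum, Finset.sum_sub_distrib]

theorem TensRel.reg {c : J → ℕ → T → (T →₀ ℤ)} {E : T → HT J d → A} (hE : TensRel d c E) :
    TensReg c E := fun t j i h1 h2 l _ => hE t j i h1 h2.le l

/-- **Criterion at regular weights.** -/
theorem criterionTR {τ : J → T ≃ T} {c : J → ℕ → T → (T →₀ ℤ)} (hd : 0 < d)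
    (hc : ∀ j t, c j d t = Finsupp.single (τ j t) 1) {V : Type*} [Fintype V]
    {n : T → V → HT J d → ℤ} (hn : ∀ k, TensRel d c (fun t => n t k))
    (E : T → HT J d → A) (hT : TwistT τ E) (μ : V → A) :
    (∀ t l, Reg l → E t l = ∑ k, n t k l • μ k) ↔
      TensReg c E ∧ ∀ t, E t eta = ∑ k, n t k eta • μ k := by
  constructor
  · intro h
    exact ⟨(tens_congr h (tens_comb hn μ)).reg, fun t => h t eta reg_eta⟩
  · rintro ⟨hE, h0⟩ t l hl
    have hC := tens_comb hn μ
    have hTC := hC.twist hd hc
    have hTD : TwistTA τ (fun t l => E t l - ∑ k, n t k l • μ k) := by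
      intro t j l
      simp only [alt_sub]
      rw [hT.alt t j l, hTC t j l]
    have := vanishTR hd hTD (hE.sub hC.reg) (fun t => sub_eq_zero.2 (h0 t)) t l hl
    exact sub_eq_zero.1 this

end

/-! ## Two places -/

section two

variable {J : Type*} [Fintype J] [DecidableEq J]

theorem sum_two {B : Type*} [AddCommMonoid B] (F : Finset (Fin 2) → B) :
    ∑ S ∈ powersetCard 1 univ, F S = F {0} + F {1} := by
  rw [powersetCard_one, sum_map, Fin.sum_univ_two]
  rfl

theorem reg_bump0 (j : J) (l : HT J 2) (hl : Reg l) : Reg (l + bump j {0} 1) := by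
  intro i
  rw [Fin.strictAnti_iff_succ_lt]
  intro s
  have h1 := hl i (show (0 : Fin 2) < 1 by decide)
  fin_cases s
  by_cases hi : i = j
  · simp [bump, hi] at h1 ⊢; linarith
  · simpa [bump, hi] using h1

theorem alt_bump1 {A : Type*} [AddCommGroup A] (E : HT J 2 → A) (j : J) (l : HT J 2)
    (hl : Reg l) : alt E (l + bump j {1} 1) =
      if l j 1 + 1 < l j 0 then E (l + bump j {1} 1) else 0 := by
  split_ifs with h
  · refine alt_of_reg _ ?_
    intro i
    rw [Fin.strictAnti_iff_succ_lt]
    intro s
    have h1 := hl i (show (0 : Fin 2) < 1 by decide)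
    fin_cases s
    by_cases hi : i = j
    · subst hi; simpa [bump] using h
    · simpa [bump, hi] using h1
  · refine alt_eq_zero _ fun w hw => ?_
    exfalso
    have h1 := hl j (show (0 : Fin 2) < 1 by decide)
    have h2 : (l + bump j {1} 1 : HT J 2) j 0 = (l + bump j {1} 1 : HT J 2) j 1 := by
      simp [bump]; omega
    have h3 : ∀ a : Fin 2, (l + bump j {1} 1 : HT J 2) j a =
        (l + bump j {1} 1 : HT J 2) j 0 := by
      intro a; fin_cases a
      · rfl
      · exact h2.symm
    have h4 := hw j (show (0 : Fin 2) < 1 by decide)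
    simp only [h3] at h4
    exact lt_irrefl _ h4

end two

end Q148.BM
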