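import Mathlib
import Pool.Agent.Q148.BM.TensReg

/-!
# One-sided tensor relations at regular weights
-/

namespace Q148.BM

open Finset

set_option linter.unusedSectionVars false

section

variable {J : Type*} [Fintype J] [DecidableEq J] {d : ℕ} {T : Type*}

/-- The one-sided tensor relations of degree less than `d`, at the regular weights. -/
def TensLe (c : J → ℕ → T → (T →₀ ℤ)) (E : T → HT J d → ℤ) : Prop :=
  ∀ (t : T) (j : J) (i : ℕ), 1 ≤ i → i < d → ∀ l : HT J d, Reg l →
    ∑ S ∈ powersetCard i univ, alt (E t) (l + bump j S 1) ≤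
      (c j i t).sum fun t' m => m * E t' l

/-- **One-sided reduction to Hodge type zero.** -/
theorem vanishTL {τ : J → T ≃ T} {c : J → ℕ → T → (T →₀ ℤ)} (hd : 0 < d)
    {D : T → HT J d → ℤ} (hpos : ∀ t l, Reg l → 0 ≤ D t l) (hT : TwistTA τ D)
    (hD : TensLe c D) (h0 : ∀ t, D t eta = 0) : ∀ t l, Reg l → D t l = 0 := by
  have main : ∀ l, Reg l → togT D l = 0 := by
    refine reduce_gen_reg (togT D) (fun _ => 1) (fun _ => 0) id (fun _ => 1) (by simp) (by simp)
      (by simp) (by simp) ?_ ?_
    · intro j i h1 h2 l S0 hS0 hl hreg' hL hR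
      have hS0m : S0 ∈ powersetCard i (univ : Finset (Fin d)) :=
        mem_powersetCard.2 ⟨subset_univ _, hS0⟩
      have hl0 : alt (togT D) l = 0 := by
        have := hR S0 hS0m
        have e : (bump j S0 0 : HT J d) = 0 := by funext a s; simp [bump]
        simpa [e] using this
      funext t
      have R := hD t j i h1 h2 l hl
      rw [Finset.sum_eq_single S0] at R
      · rw [alt_of_reg _ hreg'] at R
        change D t (l + bump j S0 1) = 0
        refine le_antisymm (R.trans_eq ?_) (hpos t _ hreg')
        refine Finset.sum_eq_zero fun t' _ => ?_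
        have := congrFun hl0 t'
        rw [alt_togT, alt_of_reg _ hl] at this
        change (c j i t) t' * D t' l = 0
        rw [this]
        exact mul_zero _
      · intro S hS hne
        have := congrFun (hL S hS hne) t
        rwa [alt_togT] at this
      · intro h; exact absurd hS0m h
    · intro l hl hs
      have e := eq_eta_add hl hs hd
      have hz : alt (togT D) eta = 0 := by
        rw [alt_of_reg _ reg_eta]
        funext t
        exact h0 t
      have := const_allT hT eta hz (fun j => l j ⟨d - 1, by omega⟩)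
      rw [← e, alt_of_reg _ hl] at this
      exact this
  intro t l hl
  exact congrFun (main l hl) t

/-- **One-sided criterion.** -/
theorem criterionTL {τ : J → T ≃ T} {c : J → ℕ → T → (T →₀ ℤ)} (hd : 0 < d)
    (hc : ∀ j t, c j d t = Finsupp.single (τ j t) 1) {V : Type*} [Fintype V]
    {n : T → V → HT J d → ℤ} (hn : ∀ k, TensRel d c (fun t => n t k))
    (E : T → HT J d → ℤ) (hT : TwistT τ E) (μ : V → ℤ)
    (hlow : ∀ t l, Reg l → ∑ k, n t k l * μ k ≤ E t l) :
    (∀ t l, Reg l → E t l = ∑ k, n t k l * μ k) ↔
      TensLe c E ∧ ∀ t, E t eta = ∑ k, n t k eta * μ k := by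
  have hC : TensRel d c (fun t l => ∑ k, n t k l * μ k) := by
    have := tens_comb hn μ
    simpa only [smul_eq_mul] using this
  have hCr : ∀ (t : T) (j : J) (i : ℕ), 1 ≤ i → i < d → ∀ l : HT J d, Reg l →
      ∑ S ∈ powersetCard i univ, alt (fun l => ∑ k, n t k l * μ k) (l + bump j S 1) =
        (c j i t).sum fun t' m => m * ∑ k, n t' k l * μ k := by
    intro t j i h1 h2 l hl
    rw [hC t j i h1 h2.le l]
    exact Finset.sum_congr rfl fun t' _ => by
      beta_reduce
      rw [alt_of_reg _ hl, smul_eq_mul]
  constructor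
  · intro h
    refine ⟨fun t j i h1 h2 l hl => ?_, fun t => h t eta reg_eta⟩
    have e1 : ∀ m, alt (E t) m = alt (fun l => ∑ k, n t k l * μ k) m :=
      fun m => alt_congr (h t) m
    simp only [e1]
    rw [hCr t j i h1 h2 l hl]
    refine (Finset.sum_congr rfl fun t' _ => ?_).le
    beta_reduce
    rw [h t' l hl]
  · rintro ⟨hE, h0⟩ t l hl
    have hTC := hC.twist hd hc
    have hTD : TwistTA τ (fun t l => E t l - ∑ k, n t k l * μ k) := by
      intro t j l
      simp only [alt_sub]
      rw [hT.alt t j l, hTC t j l]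
    have hL : TensLe c (fun t l => E t l - ∑ k, n t k l * μ k) := by
      intro t j i h1 h2 l hl
      simp only [alt_sub, Finset.sum_sub_distrib]
      rw [hCr t j i h1 h2 l hl]
      have e2 : ((c j i t).sum fun t' m => m * (E t' l - ∑ k, n t' k l * μ k)) =
          ((c j i t).sum fun t' m => m * E t' l) -
            (c j i t).sum fun t' m => m * ∑ k, n t' k l * μ k := by
        simp only [Finsupp.sum, mul_sub, Finset.sum_sub_distrib]
      rw [e2]
      exact sub_le_sub_right (hE t j i h1 h2 l hl) _
    have := vanishTL hd (fun t l hl => sub_nonneg.2 (hlow t l hl)) hTD hL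
      (fun t => sub_eq_zero.2 (h0 t)) t l hl
    exact sub_eq_zero.1 this

end

end Q148.BM
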